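import Pool.Agent.U172.NS.Gen

/-!
The trilinear form behind the production of the `H^{1/2}` norm, by harmonic extension.
-/

open MeasureTheory Set Filter Topology
open scoped ENNReal ComplexConjugate ContDiff

set_option autoImplicit false

namespace Pool.Agent.U172.SS

open H459R3.NS Pool.Agent.U172.NS

theorem pd_dot2 {v X : V → V} (hv : SPV v) (hX : SPV X) (j : Fin 3) (x : V) :
    pd j (fun y => ∑ i, v y i * X y i) x
      = ∑ i, (v x i * pd j (fun y => X y i) x + pd j (fun y => v y i) x * X x i) := pd_vX hv hX j x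

theorem tri_ibp {v X Y : V → V} (hv : SPV v) (hX : SPV X) (hY : SPV Y)
    (hdv : ∀ x, ∑ i, pd i (fun y => v y i) x = 0) (hdX : ∀ x, ∑ i, pd i (fun y => X y i) x = 0)
    (hdY : ∀ x, ∑ i, pd i (fun y => Y y i) x = 0) :
    (∫ x in cube, dot (crossProduct (v x) (curl X x)) (Y x))
      - ∫ x in cube, dot (crossProduct (v x) (X x)) (curl Y x)
      = -∫ x in cube, ∑ i, ∑ j, Y x i * X x j
        * (pd i (fun y => v y j) x + pd j (fun y => v y i) x) := by
  have hG : ∀ {a b : V → V}, SPV a → SPV b → SP (fun y => ∑ i, a y i * b y i) := fun ha hb =>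
    SP.sum fun j (_ : j ∈ Finset.univ) => (ha.sp j).mul (hb.sp j)
  have c1 : Continuous fun x => dot (Y x) (grad (fun y => ∑ i, v y i * X y i) x) :=
    dot_cont hY.1.continuous (continuous_pi fun i => ((hG hv hX).pd i).cont)
  have c2 : Continuous fun x => dot (v x) (grad (fun y => ∑ i, X y i * Y y i) x) :=
    dot_cont hv.1.continuous (continuous_pi fun i => ((hG hX hY).pd i).cont)
  have c3 : Continuous fun x => dot (X x) (grad (fun y => ∑ i, v y i * Y y i) x) :=
    dot_cont hX.1.continuous (continuous_pi fun i => ((hG hv hY).pd i).cont)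
  have c4 : Continuous fun x => ∑ i, ∑ j, Y x i * X x j
        * (pd i (fun y => v y j) x + pd j (fun y => v y i) x) := by
    refine continuous_finsetSum _ fun i _ => continuous_finsetSum _ fun j _ => ?_
    exact ((hY.sp i).cont.mul (hX.sp j).cont).mul (((hv.sp j).pd i).cont.add
      ((hv.sp i).pd j).cont)
  have c5 : Continuous fun x => dot (crossProduct (v x) (curl X x)) (Y x) :=
    dot_cont (cross_cont hv.1.continuous (curl_spv hX).1.continuous) hY.1.continuous
  have c6 : Continuous fun x => dot (crossProduct (v x) (X x)) (curl Y x) :=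
    dot_cont (cross_cont hv.1.continuous hX.1.continuous) (curl_spv hY).1.continuous
  have e : ∀ x, dot (crossProduct (v x) (curl X x)) (Y x)
        - dot (crossProduct (v x) (X x)) (curl Y x)
      = ((dot (Y x) (grad (fun y => ∑ i, v y i * X y i) x)
        - dot (v x) (grad (fun y => ∑ i, X y i * Y y i) x))
        + dot (X x) (grad (fun y => ∑ i, v y i * Y y i) x))
        - ∑ i, ∑ j, Y x i * X x j
        * (pd i (fun y => v y j) x + pd j (fun y => v y i) x) := by
    intro x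
    unfold dot grad
    simp only [pd_dot2 hv hX, pd_dot2 hX hY, pd_dot2 hv hY]
    unfold curl
    simp only [Fin.sum_univ_three, cross_apply, Matrix.cons_val_zero, Matrix.cons_val_one,
      Matrix.cons_val]
    ring
  have c12 : IntegrableOn (fun x => dot (Y x) (grad (fun y => ∑ i, v y i * X y i) x)
        - dot (v x) (grad (fun y => ∑ i, X y i * Y y i) x)) cube := integrableOn_cube (c1.sub c2)
  have c123 : IntegrableOn (fun x => (dot (Y x) (grad (fun y => ∑ i, v y i * X y i) x)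
        - dot (v x) (grad (fun y => ∑ i, X y i * Y y i) x))
        + dot (X x) (grad (fun y => ∑ i, v y i * Y y i) x)) cube :=
    integrableOn_cube ((c1.sub c2).add c3)
  rw [← integral_sub (integrableOn_cube c5) (integrableOn_cube c6)]
  simp_rw [e]
  rw [integral_sub c123 (integrableOn_cube c4), integral_add c12 (integrableOn_cube c3),
    integral_sub (integrableOn_cube c1) (integrableOn_cube c2), int_dot_grad hY hdY (hG hv hX),
    int_dot_grad hv hdv (hG hX hY), int_dot_grad hX hdX (hG hv hY)]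
  ring

/-- the quadratic quantity at a fixed height -/
theorem fixed_f {P : ℝ≥0∞} {y : ℝ} (hy : 3 * (P⁻¹).toReal = 2 * y) (hP0 : P ≠ 0)
    (hy0 : 0 ≤ y) (hy1 : y ≤ 1) : ∃ K : ℝ, 0 ≤ K ∧
    ∀ (U : Fin 3 → K3 → ℂ) (B : ℝ) (f : V → ℝ), (∀ i, Rap (U i)) → 0 ≤ B →
      AEStronglyMeasurable f (volume.restrict cube) →
      eLpNorm f P (volume.restrict cube) ≤ ENNReal.ofReal B →
      Integrable (fun x => f x * (mn (Vf U) x ^ 2 + len (Vf (LaV U) x) ^ 2))
        (volume.restrict cube) ∧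
      ∫ x in cube, f x * (mn (Vf U) x ^ 2 + len (Vf (LaV U) x) ^ 2) ≤ K * B * EU (1 + y) U := by
  obtain ⟨C, hC0, hC⟩ := sob_sum hy0 (by linarith : y < 3 / 2)
  refine ⟨(9 * C) ^ 2 + (3 * C) ^ 2, by positivity, fun U B f hU hB hfm hf => ?_⟩
  set v := Vf U with hv
  set L := Vf (LaV U) with hL
  have hvs : SPV v := Vf_spv hU
  have hLs : SPV L := Vf_spv (rap_LaV hU)
  have hMc : Continuous (mn v) := by
    unfold mn
    exact (continuous_finsetSum _ fun i _ => continuous_finsetSum _ fun j _ =>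
      (((hvs.sp i).pd j).cont).pow 2).sqrt
  have hLc : Continuous fun x => len (L x) := cont_len hLs.1.continuous
  have hpd : ∀ i j x, pd j (fun y => v y i) x = R (D j (U i)) x := fun i j x => pd_R (hU i) j x
  have hE0 := EU_nonneg (1 + y) U
  have hDE : ∀ i j, hs y (D j (U i)) ≤ EU (1 + y) U := by
    intro i j
    have h1 := hs_D (x := 1 + y) (by linarith) (by linarith) (hU i) j
    rw [add_sub_cancel_left] at h1
    exact h1.trans (hs_le_EU _ _ _)
  have hLE : ∀ i, hs y (La (U i)) ≤ EU (1 + y) U := by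
    intro i
    rw [hs_La hy0]
    exact hs_le_EU _ _ _
  have hD0 : ∀ i j, D j (U i) 0 = 0 := fun i j => by simp [D]
  have hL0 : ∀ i, La (U i) 0 = 0 := fun i => by simp [La, lam_zero]
  have hMn := hC (Fin 3 × Fin 3) (fun p => D p.2 (U p.1)) (EU (1 + y) U) (mn v)
    (fun p => (hU p.1).D p.2) (fun p => hD0 _ _) (fun p => hDE _ _)
    (fun x => Real.sqrt_nonneg _) (fun x => by
      unfold mn
      rw [Real.sqrt_le_left (Finset.sum_nonneg fun _ _ => abs_nonneg _)]
      have e : ∑ i, ∑ j, pd j (fun y => v y i) x ^ 2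
          = ∑ p : Fin 3 × Fin 3, |R (D p.2 (U p.1)) x| ^ 2 := by
        rw [Fintype.sum_prod_type]
        refine Finset.sum_congr rfl fun i _ => Finset.sum_congr rfl fun j _ => ?_
        rw [hpd, sq_abs]
      rw [e]
      exact sum_sq_le _ fun p => abs_nonneg _)
  have hLn := hC (Fin 3) (fun i => La (U i)) (EU (1 + y) U) (fun x => len (L x))
    (fun i => rap_La (hU i)) hL0 hLE (fun x => len_nonneg _) (fun x => len_le _)
  have hc1 : ((Fintype.card (Fin 3 × Fin 3) : ℕ) : ℝ) = 9 := by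
    rw [Fintype.card_prod, Fintype.card_fin]
    norm_num
  have hc2 : ((Fintype.card (Fin 3) : ℕ) : ℝ) = 3 := by
    rw [Fintype.card_fin]
    norm_num
  rw [hc1] at hMn
  rw [hc2] at hLn
  have hsq := Real.sqrt_nonneg (EU (1 + y) U)
  have hint : ∀ g : V → ℝ, ∀ c : ℝ, 0 ≤ c → Continuous g → (∀ x, 0 ≤ g x) →
      eLpNorm g (ENNReal.ofReal (6 / (3 - 2 * y))) (volume.restrict cube)
        ≤ ENNReal.ofReal (c * Real.sqrt (EU (1 + y) U)) →
      Integrable (fun x => f x * (g x * g x)) (volume.restrict cube) ∧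
      ∫ x in cube, f x * (g x * g x) ≤ c ^ 2 * B * EU (1 + y) U := by
    intro g c hc0 hgc hg0 hgn
    have hbd : ∫⁻ x in cube, ‖f x * (g x * g x)‖ₑ
        ≤ ENNReal.ofReal (B * ((c * Real.sqrt (EU (1 + y) U))
          * (c * Real.sqrt (EU (1 + y) U)))) := by
      have h1 : ∫⁻ x in cube, ‖f x * (g x * g x)‖ₑ ≤ eLpNorm f P (volume.restrict cube)
          * (eLpNorm g (ENNReal.ofReal (6 / (3 - 2 * y))) (volume.restrict cube)
            * eLpNorm g (ENNReal.ofReal (6 / (3 - 2 * y))) (volume.restrict cube)) :=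
        holder_P2 hy hP0 (by linarith) hfm hgc hgc
      refine h1.trans ?_
      rw [ENNReal.ofReal_mul hB, ENNReal.ofReal_mul (mul_nonneg hc0 hsq)]
      gcongr
    have hI : Integrable (fun x => f x * (g x * g x)) (volume.restrict cube) :=
      ⟨hfm.mul (hgc.mul hgc).aestronglyMeasurable, lt_of_le_of_lt hbd ENNReal.ofReal_lt_top⟩
    refine ⟨hI, ?_⟩
    have h2 : ∫ x in cube, f x * (g x * g x)
        ≤ (∫⁻ x in cube, ‖f x * (g x * g x)‖ₑ).toReal := by
      refine (le_abs_self _).trans ?_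
      rw [← Real.norm_eq_abs]
      refine (norm_integral_le_lintegral_norm _).trans (le_of_eq ?_)
      simp_rw [ofReal_norm]
    have h3 := ENNReal.toReal_le_of_le_ofReal (by positivity) hbd
    have h4 : Real.sqrt (EU (1 + y) U) * Real.sqrt (EU (1 + y) U) = EU (1 + y) U :=
      Real.mul_self_sqrt hE0
    calc ∫ x in cube, f x * (g x * g x) ≤ B * ((c * Real.sqrt (EU (1 + y) U))
          * (c * Real.sqrt (EU (1 + y) U))) := h2.trans h3
      _ = c ^ 2 * B * (Real.sqrt (EU (1 + y) U) * Real.sqrt (EU (1 + y) U)) := by ring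
      _ = _ := by rw [h4]
  obtain ⟨i1, b1⟩ := hint (mn v) (9 * C) (by positivity) hMc (fun x => Real.sqrt_nonneg _) hMn
  obtain ⟨i2, b2⟩ := hint (fun x => len (L x)) (3 * C) (by positivity) hLc
    (fun x => len_nonneg _) hLn
  have e : (fun x => f x * (mn v x ^ 2 + len (L x) ^ 2))
      = fun x => f x * (mn v x * mn v x) + f x * (len (L x) * len (L x)) := by
    funext x
    ring
  rw [e]
  refine ⟨i1.add i2, ?_⟩
  rw [integral_add i1 i2]
  linarith

theorem len_curl_le (W : V → V) (x : V) : len (curl W x) ^ 2 ≤ 2 * mn W x ^ 2 := by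
  rw [len_sq]
  unfold mn
  rw [Real.sq_sqrt (Finset.sum_nonneg fun _ _ => Finset.sum_nonneg fun _ _ => sq_nonneg _)]
  simp only [Fin.sum_univ_three]
  unfold curl
  simp only [Matrix.cons_val_zero, Matrix.cons_val_one, Matrix.cons_val]
  nlinarith [sq_nonneg (pd 1 (fun y => W y 2) x + pd 2 (fun y => W y 1) x),
    sq_nonneg (pd 2 (fun y => W y 0) x + pd 0 (fun y => W y 2) x),
    sq_nonneg (pd 0 (fun y => W y 1) x + pd 1 (fun y => W y 0) x),
    sq_nonneg (pd 0 (fun y => W y 0) x), sq_nonneg (pd 1 (fun y => W y 1) x),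
    sq_nonneg (pd 2 (fun y => W y 2) x)]

/-- the pointwise bound of the integrand -/
theorem ptw {s : ℝ} (hs : s = 1 ∨ s = -1) (W : V → V) (L X Y : V) (x : V)
    (hX : X = fun i => (L i + s * curl W x i) / 2) :
    |dot (crossProduct L X) Y - s * ∑ i, ∑ j, Y i * X j
        * (pd i (fun y => W y j) x + pd j (fun y => W y i) x)|
      ≤ 4 * len Y * (mn W x ^ 2 + len L ^ 2) := by
  have hm : 0 ≤ mn W x := Real.sqrt_nonneg _
  have hL := len_nonneg L
  have hXn := len_nonneg X
  have hY := len_nonneg Y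
  have hO := len_nonneg (curl W x)
  have h1 := lagrange L X Y
  have h2 := cs3 Y X (fun i j => pd j (fun y => W y i) x)
  have h3 := cs3 X Y (fun i j => pd j (fun y => W y i) x)
  have e : ∑ i, ∑ j, Y i * X j * (pd i (fun y => W y j) x + pd j (fun y => W y i) x)
      = (∑ i, ∑ j, X i * Y j * pd j (fun y => W y i) x)
        + ∑ i, ∑ j, Y i * X j * pd j (fun y => W y i) x := by
    simp only [Fin.sum_univ_three]
    ring
  have h4 : len X ≤ (len (curl W x) + len L) / 2 := by
    have h5 := len_half_le hs L (curl W x)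
    rw [← hX] at h5
    linarith
  have h6 := len_curl_le W x
  have hs1 : |s| = 1 := by rcases hs with h | h <;> rw [h] <;> simp
  have hmn : Real.sqrt (∑ i, ∑ j, (fun i j => pd j (fun y => W y i) x) i j ^ 2) = mn W x := rfl
  rw [hmn] at h2 h3
  have h7 : |s * ∑ i, ∑ j, Y i * X j * (pd i (fun y => W y j) x + pd j (fun y => W y i) x)|
      ≤ 2 * (len Y * (len X * mn W x)) := by
    rw [abs_mul, hs1, one_mul, e]
    refine (abs_add_le _ _).trans ?_
    have e2 : len X * (len Y * mn W x) = len Y * (len X * mn W x) := by ring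
    linarith
  have h8 := abs_sub (dot (crossProduct L X) Y)
    (s * ∑ i, ∑ j, Y i * X j * (pd i (fun y => W y j) x + pd j (fun y => W y i) x))
  have h9 : len X * (len L + 2 * mn W x) ≤ 4 * (mn W x ^ 2 + len L ^ 2) := by
    have a1 : len X * (len L + 2 * mn W x)
        ≤ (len (curl W x) + len L) / 2 * (len L + 2 * mn W x) :=
      mul_le_mul_of_nonneg_right h4 (by positivity)
    refine a1.trans ?_
    nlinarith [sq_nonneg (len (curl W x) - len L), sq_nonneg (len (curl W x) - mn W x),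
      sq_nonneg (len L - mn W x)]
  have h10 := mul_le_mul_of_nonneg_left h9 hY
  calc _ ≤ len Y * (len L * len X) + 2 * (len Y * (len X * mn W x)) := by linarith
    _ = len Y * (len X * (len L + 2 * mn W x)) := by ring
    _ ≤ len Y * (4 * (mn W x ^ 2 + len L ^ 2)) := h10
    _ = _ := by ring

theorem Vf_smul (c : ℝ) (A : Fin 3 → K3 → ℂ) (x : V) :
    Vf (fun i k => (c : ℂ) * A i k) x = fun i => c * Vf A x i := by
  funext i
  exact R_smul c (A i) x

theorem FlV_smul (c : ℝ) (A : Fin 3 → K3 → ℂ) (τ : ℝ) :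
    FlV τ (fun i k => (c : ℂ) * A i k) = fun i k => (c : ℂ) * FlV τ A i k := by
  funext i k
  unfold FlV Fl
  ring

/-- **the bound of the trilinear form by the harmonic extension** -/
theorem tri_pois {a : ℝ} (ha : 0 < a) (ha1 : a ≤ 1) {P : ℝ≥0∞} {y : ℝ}
    (hy : 3 * (P⁻¹).toReal = 2 * y) (hP0 : P ≠ 0)
    (hy0 : 0 ≤ y) (hy1 : y ≤ 1) : ∃ K : ℝ, 0 ≤ K ∧
    ∀ (U A H : Fin 3 → K3 → ℂ) (s B : ℝ), (s = 1 ∨ s = -1) → (∀ i, Rap (U i)) →
      (∀ i, Rap (A i)) → (∀ i, Rap (H i)) → (∀ i, Hm (U i)) → (∀ i, Hm (A i)) →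
      (∀ i, Hm (H i)) → (∀ k, ∑ i, D i (U i) k = 0) → (∀ k, ∑ i, D i (A i) k = 0) →
      (∀ k, ∑ i, D i (H i) k = 0) → (∀ i, U i 0 = 0) →
      (∀ i k, La (A i) k = 1 / 2 * (La (U i) k + s * cu U i k)) →
      (∀ i k, La (La (A i)) k = (s : ℂ) * cu (LaV A) i k) →
      (∀ i k, La (La (H i)) k = ((-s : ℝ) : ℂ) * cu (LaV H) i k) → 0 ≤ B →
      (∀ τ, 0 < τ → eLpNorm (fun x => len (Vf (FlV τ (LaV H)) x)) P (volume.restrict cube)
        ≤ ENNReal.ofReal (B * τ ^ (a - 1))) →
      |TD U (LaV A) (LaV H)| ≤ K * B * EU (1 + y - a / 2) U := by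
  obtain ⟨K, hK0, hK⟩ := fixed_f hy hP0 hy0 hy1
  refine ⟨4 * K / (a * 2 ^ (a - 1)), by positivity,
    fun U A H s B hs hU hA hH hU' hA' hH' hdU hdA hdH hU0 hAU hAA hHH hB hb => ?_⟩
  set ζ : ℝ := 1 + y - a / 2 with hζ
  have hζ2 : ζ ≤ 2 := by rw [hζ]; linarith
  have hζ0 : 0 < ζ := by rw [hζ]; linarith
  have hζa : ζ + a / 2 = 1 + y := by rw [hζ]; ring
  have eL : ∀ τ A, LaV (FlV τ A) = FlV τ (LaV A) := fun τ A => funext fun i => La_Fl τ (A i)
  set Ψ : ℝ → ℝ := fun τ => TD (FlV τ U) (FlV τ (LaV A)) (FlV τ (LaV H)) with hΨ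
  have hΨc : ContinuousOn Ψ (Ici 0) :=
    TD_continuousOn hU (rap_LaV hA) (rap_LaV hH) hU' (hm_LaV hA') (hm_LaV hH')
  have hΨt : Tendsto Ψ atTop (𝓝 0) :=
    TD_tendsto hU (rap_LaV hA) (rap_LaV hH) hU' (hm_LaV hA') (hm_LaV hH') hU0
  have hbound : ∀ τ, 0 < τ → |-(TD (FlV τ (LaV U)) (FlV τ (LaV A)) (FlV τ (LaV H))
      + TD (FlV τ U) (FlV τ (LaV (LaV A))) (FlV τ (LaV H))
      + TD (FlV τ U) (FlV τ (LaV A)) (FlV τ (LaV (LaV H))))|
        ≤ K * (4 * (B * τ ^ (a - 1))) * EU (1 + y) (FlV τ U) := by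
    intro τ hτ
    have hBτ : 0 ≤ B * τ ^ (a - 1) := by positivity
    set W := Vf (FlV τ U) with hW
    set L := Vf (FlV τ (LaV U)) with hL
    set X := Vf (FlV τ (LaV A)) with hX
    set Y := Vf (FlV τ (LaV H)) with hY
    have hWs : SPV W := Vf_spv (rap_FlV hU hτ.le)
    have hLs : SPV L := Vf_spv (rap_FlV (rap_LaV hU) hτ.le)
    have hXs : SPV X := Vf_spv (rap_FlV (rap_LaV hA) hτ.le)
    have hYs : SPV Y := Vf_spv (rap_FlV (rap_LaV hH) hτ.le)
    have hWd : ∀ x, ∑ i, pd i (fun y => W y i) x = 0 :=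
      div_Vf (rap_FlV hU hτ.le) (div_FlV hdU τ)
    have hXd : ∀ x, ∑ i, pd i (fun y => X y i) x = 0 :=
      div_Vf (rap_FlV (rap_LaV hA) hτ.le) (div_FlV (div_LaV hdA) τ)
    have hYd : ∀ x, ∑ i, pd i (fun y => Y y i) x = 0 :=
      div_Vf (rap_FlV (rap_LaV hH) hτ.le) (div_FlV (div_LaV hdH) τ)
    have eA : LaV (LaV A) = fun i k => (s : ℂ) * cu (LaV A) i k := by
      funext i k
      exact hAA i k
    have eH : LaV (LaV H) = fun i k => ((-s : ℝ) : ℂ) * cu (LaV H) i k := by
      funext i k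
      exact hHH i k
    have f2 : TD (FlV τ U) (FlV τ (LaV (LaV A))) (FlV τ (LaV H))
        = s * ∫ x in cube, dot (crossProduct (W x) (curl X x)) (Y x) := by
      unfold TD
      rw [eA, FlV_smul, ← integral_const_mul]
      congr 1
      funext x
      rw [Vf_smul, ← cu_Fl, ← curl_Vf (rap_FlV (rap_LaV hA) hτ.le), ← hW, ← hX, ← hY]
      unfold dot
      simp only [Fin.sum_univ_three, cross_apply, Matrix.cons_val_zero, Matrix.cons_val_one,
        Matrix.cons_val]
      ring
    have f3 : TD (FlV τ U) (FlV τ (LaV A)) (FlV τ (LaV (LaV H)))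
        = -s * ∫ x in cube, dot (crossProduct (W x) (X x)) (curl Y x) := by
      unfold TD
      rw [eH, FlV_smul, ← integral_const_mul]
      congr 1
      funext x
      rw [Vf_smul, ← cu_Fl, ← curl_Vf (rap_FlV (rap_LaV hH) hτ.le), ← hW, ← hX, ← hY]
      unfold dot
      simp only [Fin.sum_univ_three, cross_apply, Matrix.cons_val_zero, Matrix.cons_val_one,
        Matrix.cons_val]
      ring
    have f1 : TD (FlV τ (LaV U)) (FlV τ (LaV A)) (FlV τ (LaV H))
        = ∫ x in cube, dot (crossProduct (L x) (X x)) (Y x) := rfl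
    have hib := tri_ibp hWs hXs hYs hWd hXd hYd
    have cS : Continuous fun x => ∑ i, ∑ j, Y x i * X x j
        * (pd i (fun y => W y j) x + pd j (fun y => W y i) x) := by
      refine continuous_finsetSum _ fun i _ => continuous_finsetSum _ fun j _ => ?_
      exact ((hYs.sp i).cont.mul (hXs.sp j).cont).mul (((hWs.sp j).pd i).cont.add
        ((hWs.sp i).pd j).cont)
    have cL : Continuous fun x => dot (crossProduct (L x) (X x)) (Y x) :=
      dot_cont (cross_cont hLs.1.continuous hXs.1.continuous) hYs.1.continuous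
    have hsum : -(TD (FlV τ (LaV U)) (FlV τ (LaV A)) (FlV τ (LaV H))
      + TD (FlV τ U) (FlV τ (LaV (LaV A))) (FlV τ (LaV H))
      + TD (FlV τ U) (FlV τ (LaV A)) (FlV τ (LaV (LaV H))))
        = -∫ x in cube, (dot (crossProduct (L x) (X x)) (Y x) - s * ∑ i, ∑ j, Y x i * X x j
        * (pd i (fun y => W y j) x + pd j (fun y => W y i) x)) := by
      rw [f1, f2, f3, integral_sub (integrableOn_cube cL) ((integrableOn_cube cS).const_mul s),
        integral_const_mul]
      linear_combination (-s) * hib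
    rw [hsum, abs_neg]
    have hXe : ∀ x, X x = fun i => (L x i + s * curl W x i) / 2 := by
      intro x
      funext i
      have e1 : FlV τ (LaV A) i = fun k => ((1 / 2 : ℝ) : ℂ) * (fun k => FlV τ (LaV U) i k
          + (s : ℂ) * FlV τ (cu U) i k) k := by
        funext k
        have h1 := hAU i k
        unfold FlV Fl LaV
        rw [h1]
        push_cast
        ring
      have e2 : X x i = R (FlV τ (LaV A) i) x := rfl
      rw [e2, e1, R_smul, R_add (rap_FlV (rap_LaV hU) hτ.le i)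
        (rap_wmul (rap_FlV (rap_cu hU) hτ.le i) (w := fun _ => s) (C := |s|) (m := 0)
          fun k => by rw [pow_zero, mul_one]), R_smul]
      have e3 : curl W x i = R (FlV τ (cu U) i) x := by
        rw [hW, curl_Vf (rap_FlV hU hτ.le), cu_Fl]
        rfl
      rw [e3]
      have e4 : L x i = R (FlV τ (LaV U) i) x := rfl
      rw [e4]
      ring
    have hYc : Continuous fun x => len (Y x) := cont_len hYs.1.continuous
    have hYb : eLpNorm (fun x => 4 * len (Y x)) P (volume.restrict cube)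
        ≤ ENNReal.ofReal (4 * (B * τ ^ (a - 1))) := by
      have h2 : eLpNorm (fun x => 4 * len (Y x)) P (volume.restrict cube)
          = ‖(4 : ℝ)‖ₑ * eLpNorm (fun x => len (Y x)) P (volume.restrict cube) :=
        eLpNorm_const_smul (4 : ℝ) (fun x => len (Y x)) _ _
      rw [h2, ENNReal.ofReal_mul (by norm_num), Real.enorm_eq_ofReal (by norm_num)]
      gcongr
      exact hb τ hτ
    obtain ⟨i1, b1⟩ := hK (FlV τ U) (4 * (B * τ ^ (a - 1))) (fun x => 4 * len (Y x)) (rap_FlV hU hτ.le)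
      (by positivity) (hYc.const_mul 4).aestronglyMeasurable hYb
    rw [eL] at i1 b1
    have h5 := norm_integral_le_of_norm_le i1 (f := fun x => dot (crossProduct (L x) (X x)) (Y x)
        - s * ∑ i, ∑ j, Y x i * X x j * (pd i (fun y => W y j) x + pd j (fun y => W y i) x))
      (Eventually.of_forall fun x => by
        rw [Real.norm_eq_abs]
        exact ptw hs W (L x) (X x) (Y x) x (hXe x))
    rw [Real.norm_eq_abs] at h5
    exact h5.trans b1
  set c : ℝ := 4 * K / (a * 2 ^ (a - 1)) * B with hc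
  have hc0 : 0 ≤ c := by positivity
  have hmono : ∀ ε : ℝ, |ε| = 1 → ε * Ψ 0 ≤ c * EU ζ U := by
    intro ε hε
    set h : ℝ → ℝ := fun τ => c * Gw a ζ U τ + ε * Ψ τ with hh
    have hhc : ContinuousOn h (Ici 0) :=
      (continuousOn_const.mul (Gw_continuousOn ha hζ2 hU)).add
        (continuousOn_const.mul hΨc)
    have hder : ∀ τ, 0 < τ → HasDerivAt h
        (c * (∑ i, ∑' k, wt ζ k * ‖U i k‖ ^ 2 * dph2 a (lam k) τ)
          + ε * -(TD (FlV τ (LaV U)) (FlV τ (LaV A)) (FlV τ (LaV H))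
      + TD (FlV τ U) (FlV τ (LaV (LaV A))) (FlV τ (LaV H))
      + TD (FlV τ U) (FlV τ (LaV A)) (FlV τ (LaV (LaV H))))) τ := fun τ hτ =>
      ((Gw_hasDerivAt ha ha1 hζ2 hU hτ).const_mul _).add
        ((TD_hasDerivAt hU (rap_LaV hA) (rap_LaV hH) hU' (hm_LaV hA') (hm_LaV hH') hτ).const_mul ε)
    have hmon : MonotoneOn h (Ici 0) := by
      refine monotoneOn_of_deriv_nonneg (convex_Ici 0) hhc ?_ ?_
      · rw [interior_Ici]
        exact fun τ hτ => (hder τ hτ).differentiableAt.differentiableWithinAt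
      · rw [interior_Ici]
        intro τ hτ
        have hτ' : 0 < τ := hτ
        rw [(hder τ hτ).deriv]
        have h1 := hbound τ hτ
        have h2 : -(ε * -(TD (FlV τ (LaV U)) (FlV τ (LaV A)) (FlV τ (LaV H))
      + TD (FlV τ U) (FlV τ (LaV (LaV A))) (FlV τ (LaV H))
      + TD (FlV τ U) (FlV τ (LaV A)) (FlV τ (LaV (LaV H)))))
          ≤ |-(TD (FlV τ (LaV U)) (FlV τ (LaV A)) (FlV τ (LaV H))
      + TD (FlV τ U) (FlV τ (LaV (LaV A))) (FlV τ (LaV H))
      + TD (FlV τ U) (FlV τ (LaV A)) (FlV τ (LaV (LaV H))))| := by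
          refine (neg_le_abs _).trans ?_
          rw [abs_mul, hε, one_mul]
        have g1 := Gw_deriv_ge ha ha1 hζ2 hU (by rw [hζa]; linarith) hζ0 hτ'
        rw [hζa] at g1
        have g3 := mul_le_mul_of_nonneg_left g1 hc0
        have g4 : c * (a * (2 * τ) ^ (a - 1) * EU (1 + y) (FlV τ U))
            = K * (4 * (B * τ ^ (a - 1))) * EU (1 + y) (FlV τ U) := by
          rw [hc, Real.mul_rpow (by norm_num) hτ'.le]
          field_simp
        linarith
    have hlim : Tendsto (fun r => c * EU ζ U + ε * Ψ r) atTop (𝓝 (c * EU ζ U + ε * 0)) :=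
      tendsto_const_nhds.add (hΨt.const_mul ε)
    rw [mul_zero, add_zero] at hlim
    refine ge_of_tendsto hlim ?_
    filter_upwards [eventually_ge_atTop (0 : ℝ)] with r hr
    have h1 := hmon (mem_Ici.2 le_rfl) (mem_Ici.2 hr) hr
    simp only [hh] at h1
    rw [Gw_zero ha, mul_zero, zero_add] at h1
    have h2 := mul_le_mul_of_nonneg_left (Gw_le ha hζ2 hU hr) hc0
    linarith
  have hΨ0 : Ψ 0 = TD U (LaV A) (LaV H) := by
    have e : ∀ A : Fin 3 → K3 → ℂ, FlV 0 A = A := fun A => funext fun i => Fl_zero (A i)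
    simp only [hΨ]
    rw [e, e, e]
  have m1 := hmono 1 (by simp)
  have m2 := hmono (-1) (by simp)
  rw [hΨ0] at m1 m2
  rw [abs_le]
  constructor <;> linarith

end Pool.Agent.U172.SS
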