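import Pool.Agent.U172.SS.Lin2
import Pool.Agent.U172.SS.Tri
import Pool.Agent.U172.NS.MixMain
import Pool.Agent.U583.HC.Zero

set_option autoImplicit false

/-!
The bound of the nonlinear term by one helical part in a sum space.
-/

open MeasureTheory Set Filter Topology
open scoped ContDiff ComplexConjugate RealInnerProductSpace ENNReal

namespace Pool.Agent.U172.SS

open H459R3.NS Pool.Agent.Q63.Win Pool.Agent.U583.HC

/-! ### the two conventions -/

theorem lamlam (k : K3) : NS.lam k = lam k := by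
  unfold NS.lam NS.wt NS.q2 lam
  rw [← Real.sqrt_eq_rpow, Real.sqrt_mul (by positivity), Real.sqrt_sq (by positivity)]

theorem q2lam (k : K3) : NS.q2 k = lam k ^ 2 := by
  rw [← lamlam, sq, NS.lam_sq]

theorem hs_half (a : K3 → ℂ) : NS.hs (1 / 2) a = ∑' k, lam k * ‖a k‖ ^ 2 := by
  unfold NS.hs
  refine tsum_congr fun k => ?_
  rw [← lamlam]
  rfl

theorem hs_32 (a : K3 → ℂ) : NS.hs (1 / 2 + 1) a = ∑' k, lam k ^ 3 * ‖a k‖ ^ 2 := by
  unfold NS.hs
  refine tsum_congr fun k => ?_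
  rw [← NS.wt_mul_q2 (by norm_num) k, q2lam]
  have : NS.wt (1 / 2) k = lam k := lamlam k
  rw [this]
  ring

theorem Es_half (v : V → V) : NS.Es (1 / 2) v = En fun i y => v y i := by
  unfold NS.Es En
  exact Finset.sum_congr rfl fun i _ => hs_half _

theorem Es_32 (v : V → V) : NS.Es (1 / 2 + 1) v = Dn fun i y => v y i := by
  unfold NS.Es Dn
  exact Finset.sum_congr rfl fun i _ => hs_32 _

theorem La_fr {f : V → ℝ} (hf : SP f) : NS.La (fr f) = fr (Lam f) := by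
  funext k
  rw [fr_Lam hf]
  unfold NS.La
  rw [lamlam]

theorem cu_fr {a : Fin 3 → V → ℝ} (ha : ∀ i, SP (a i)) (i : Fin 3) :
    NS.cu (fun i => fr (a i)) i = fr (crl a i) := by
  have h : ∀ i, fr (crl a i) = fun k => D (i + 1) (fr (a (i + 2))) k
      - D (i + 2) (fr (a (i + 1))) k := by
    intro i
    funext k
    have := fr_sub ((ha (i + 2)).pd (i + 1)) ((ha (i + 1)).pd (i + 2)) k
    rw [fr_pd (ha _), fr_pd (ha _)] at this
    exact this
  rw [h]
  unfold NS.cu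
  fin_cases i
  · rfl
  · rfl
  · rfl

theorem Vf_fr {v : Fin 3 → V → ℝ} (hv : ∀ i, SP (v i)) (x : V) :
    NS.Vf (fun i => fr (v i)) x = fun i => v i x := by
  funext i
  exact NS.R_fr (hv i) x

theorem Vf_La {v : Fin 3 → V → ℝ} (hv : ∀ i, SP (v i)) (x : V) :
    NS.Vf (NS.LaV fun i => fr (v i)) x = fun i => Lam (v i) x := by
  funext i
  show NS.R (NS.La (fr (v i))) x = _
  rw [La_fr (hv i)]
  exact NS.R_fr (Lam_sp (hv i)) x

theorem TT_eq {v a h : Fin 3 → V → ℝ} (hv : ∀ i, SP (v i)) (ha : ∀ i, SP (a i))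
    (hh : ∀ i, SP (h i)) : TT v a h
      = NS.TD (fun i => fr (v i)) (NS.LaV fun i => fr (a i)) (NS.LaV fun i => fr (h i)) := by
  unfold TT NS.TD
  rw [← integral_finsetSum _ fun i _ =>
    ((crs_sp hv (fun i => Lam_sp (ha i)) i).mul (Lam_sp (hh i))).int]
  congr 1
  funext x
  rw [Vf_fr hv, Vf_La ha, Vf_La hh]
  unfold crs NS.dot
  simp only [Fin.sum_univ_three, cross_apply, Matrix.cons_val_zero, Matrix.cons_val_one,
    Matrix.cons_val]
  simp only [Fin.isValue, Fin.reduceAdd, zero_add]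

theorem div_fr {v : Fin 3 → V → ℝ} (hv : ∀ i, SP (v i)) (hd : ∀ x, ∑ i, pd i (v i) x = 0)
    (k : K3) : ∑ i, D i (fr (v i)) k = 0 := by
  have e : ∀ i, D i (fr (v i)) k = fr (pd i (v i)) k := fun i => by rw [fr_pd (hv i)]
  simp_rw [e]
  have h := fr_sum (s := Finset.univ) (f := fun i => pd i (v i)) (fun i _ => (hv i).pd i) k
  rw [← h]
  have e0 : (fun y => ∑ i, pd i (v i) y) = fun _ => (0 : ℝ) := funext hd
  rw [e0, fr_const]
  simp

theorem hs_nz {s : ℝ} (hs : s ≠ 0) {f : V → ℝ} (hf : SP f) :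
    NS.hs s (fr (Mlt nz f)) = NS.hs s (fr f) := by
  unfold NS.hs
  refine tsum_congr fun k => ?_
  rw [fr_Mlt sym_nz hf]
  unfold nz
  split_ifs with hk
  · rw [hk, NS.wt_zero hs]; simp
  · simp

/-- the bound of the trilinear form, for fields -/
theorem tri_fn {a' : ℝ} (ha0 : 0 < a') (ha1 : a' ≤ 1) {P : ℝ≥0∞} {y : ℝ}
    (hy : 3 * (P⁻¹).toReal = 2 * y) (hP0 : P ≠ 0)
    (hy0 : 0 ≤ y) (hy1 : y ≤ 1) : ∃ K : ℝ, 0 ≤ K ∧
    ∀ (v : V → V) (h : Fin 3 → V → ℝ) (s B : ℝ), (s = 1 ∨ s = -1) → (∀ i, SP fun x => v x i) →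
      (∀ x, ∑ i, pd i (fun y => v y i) x = 0) → (∀ i, SP (h i)) →
      (∀ i x, crl h i x = s * Lam (h i) x) → (∀ x, ∑ i, pd i (h i) x = 0) → 0 ≤ B →
      (∀ τ : ℝ, 0 < τ → eLpNorm (fun x => NS.len (fun i => NS.pois τ (Lam (h i)) x)) P
        (volume.restrict cube) ≤ ENNReal.ofReal (B * τ ^ (a' - 1))) →
      |TT (fun i => Mlt nz fun x => v x i) (hp (-s) fun i x => v x i) h|
        ≤ K * B * NS.Es (1 + y - a' / 2) v := by
  obtain ⟨K, hK0, hK⟩ := tri_pois ha0 ha1 hy hP0 hy0 hy1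
  refine ⟨K, hK0, fun v h s B hs hv hdiv hh hch hdh hB hb => ?_⟩
  set w : Fin 3 → V → ℝ := fun i x => v x i with hw
  have hs' : s * s = 1 := by rcases hs with h | h <;> rw [h] <;> norm_num
  have hs2 : -s * -s = 1 := by linarith
  set a := hp (-s) w with ha
  have hva : ∀ i, SP (w i) := hv
  have has : ∀ i, SP (a i) := hp_sp (-s) hva
  have hvs : ∀ i, SP (Mlt nz (w i)) := fun i => Mlt_sp sym_nz (hva i)
  have hLh : ∀ i, SP (Lam (h i)) := fun i => Lam_sp (hh i)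
  have hca : ∀ i, crl a i = fun x => -s * Lam (a i) x := fun i => crl_hp hva hdiv hs2 i
  have hdv' : ∀ x, ∑ i, pd i (Mlt nz (w i)) x = 0 := by
    intro x
    have : ∀ i, pd i (Mlt nz (w i)) x = pd i (w i) x := fun i => congrFun (pd_nz (hva i) i) x
    simp_rw [this]
    exact hdiv x
  have hcrl : ∀ i, crl (fun i => Mlt nz (w i)) i = crl w i := by
    intro i
    funext x
    unfold crl
    simp only [pd_nz (hva _)]
  have hcrl0 : ∀ i, fr (crl w i) 0 = 0 := by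
    intro i
    have := fr_sub ((hva (i + 2)).pd (i + 1)) ((hva (i + 1)).pd (i + 2)) 0
    rw [fr_pd_zero (hva _), fr_pd_zero (hva _), sub_zero] at this
    exact this
  rw [TT_eq hvs has hh]
  have hE : NS.EU (1 + y - a' / 2) (fun i => fr (Mlt nz (w i))) = NS.Es (1 + y - a' / 2) v := by
    unfold NS.EU NS.Es
    exact Finset.sum_congr rfl fun i _ => hs_nz (by linarith) (hva i)
  rw [← hE]
  have h3 : ∀ τ : ℝ, 0 < τ → eLpNorm (fun x => NS.len (NS.Vf (NS.FlV τ (NS.LaV fun i => fr (h i)))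
      x)) P (volume.restrict cube) ≤ ENNReal.ofReal (B * τ ^ (a' - 1)) := by
    intro τ hτ
    have e : (fun x => NS.len (NS.Vf (NS.FlV τ (NS.LaV fun i => fr (h i))) x))
        = fun x => NS.len (fun i => NS.pois τ (Lam (h i)) x) := by
      funext x
      congr 1
      funext i
      show NS.R (NS.Fl τ (NS.La (fr (h i)))) x = NS.R (NS.Fl τ (fr (Lam (h i)))) x
      rw [La_fr (hh i)]
    rw [e]
    exact hb τ hτ
  exact hK (fun i => fr (Mlt nz (w i))) (fun i => fr (a i)) (fun i => fr (h i)) (-s)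
    B (by rcases hs with h | h <;> rw [h] <;> simp) (fun i => rap_fr (hvs i))
    (fun i => rap_fr (has i)) (fun i => rap_fr (hh i)) (fun i => NS.hm_fr _)
    (fun i => NS.hm_fr _) (fun i => NS.hm_fr _) (div_fr hvs hdv')
    (div_fr has (div_hp hva hdiv (-s))) (div_fr hh hdh)
    (fun i => by
      show fr (Mlt nz (w i)) 0 = 0
      rw [fr_Mlt sym_nz (hva i)]
      unfold nz
      simp)
    (fun i k => by
      show NS.La (fr (a i)) k = 1 / 2 * (NS.La (fr (Mlt nz (w i))) k + _)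
      rw [cu_fr hvs, hcrl]
      unfold NS.La
      rw [ha, fr_hp _ hva, fr_Mlt sym_nz (hva i), lamlam]
      have e1 : ((lam k : ℝ) : ℂ) * ((il k : ℝ) : ℂ) = ((nz k : ℝ) : ℂ) := by
        rw [← Complex.ofReal_mul, lam_il]
      have e2 : ((nz k : ℝ) : ℂ) * fr (crl w i) k = fr (crl w i) k := by
        unfold nz
        split_ifs with hk
        · rw [hk, hcrl0]; simp
        · simp
      linear_combination (1 / 2 * ((-s : ℝ) : ℂ) * fr (crl w i) k) * e1
        + (1 / 2 * ((-s : ℝ) : ℂ)) * e2)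
    (fun i k => by
      rw [NS.cu_La]
      show NS.La (NS.La (fr (a i))) k = _ * NS.La (NS.cu (fun i => fr (a i)) i) k
      rw [cu_fr has, hca i]
      unfold NS.La
      rw [fr_smul, fr_Lam (has i), lamlam]
      have e : ((-s : ℝ) : ℂ) * ((-s : ℝ) : ℂ) = 1 := by
        rw [← Complex.ofReal_mul, hs2, Complex.ofReal_one]
      linear_combination (-(((lam k : ℝ) : ℂ) * (((lam k : ℝ) : ℂ) * fr (a i) k))) * e)
    (fun i k => by
      have hch' : crl h i = fun x => s * Lam (h i) x := funext fun x => hch i x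
      rw [NS.cu_La]
      show NS.La (NS.La (fr (h i))) k = _ * NS.La (NS.cu (fun i => fr (h i)) i) k
      rw [cu_fr hh, hch']
      unfold NS.La
      rw [fr_smul, fr_Lam (hh i), lamlam, neg_neg]
      have e : (s : ℂ) * (s : ℂ) = 1 := by
        rw [← Complex.ofReal_mul, hs', Complex.ofReal_one]
      linear_combination (-(((lam k : ℝ) : ℂ) * (((lam k : ℝ) : ℂ) * fr (h i) k))) * e)
    hB h3

/-- the nonlinear term is the linear functional of one helical part -/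
theorem conv_TT {v : Fin 3 → V → ℝ} (hv : ∀ i, SP (v i)) (hdiv : ∀ x, ∑ i, pd i (v i) x = 0)
    {s : ℝ} (hs : s * s = 1) : ∑ i, ∫ x in cube, conv v i x * Lam (v i) x
      = 2 * s * TT (fun i => Mlt nz (v i)) (hp (-s) v) (hp s v) := by
  set v' : Fin 3 → V → ℝ := fun i => Mlt nz (v i) with hv'
  set a := hp (-s) v with ha
  set z := hp s v with hz
  have hs' : -s * -s = 1 := by linarith
  have has : ∀ i, SP (a i) := hp_sp (-s) hv
  have hzs : ∀ i, SP (z i) := hp_sp s hv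
  have hvs : ∀ i, SP (v' i) := fun i => Mlt_sp sym_nz (hv i)
  have hdv' : ∀ x, ∑ i, pd i (v' i) x = 0 := by
    intro x
    have : ∀ i, pd i (v' i) x = pd i (v i) x := fun i => congrFun (pd_nz (hv i) i) x
    simp_rw [this]
    exact hdiv x
  have hva : ∀ i, v' i = fun x => a i x + z i x := by
    intro i
    funext x
    show Mlt nz (v i) x = _
    rw [hp_add (s := s) i x, add_comm]
  have h1 : ∑ i, ∫ x in cube, conv v i x * Lam (v i) x
      = ∑ i, ∫ x in cube, conv v' i x * Lam (v' i) x := Finset.sum_congr rfl fun i _ =>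
    conv_nz hv i
  have h2 := lamb hvs (fun i => Lam_sp (hvs i)) (div_Lam hvs hdv')
  have eL : ∀ i x, Lam (v' i) x = Lam (a i) x + Lam (z i) x := by
    intro i x
    rw [hva i]
    exact congrFun (Mlt_add sym_lam (has i) (hzs i)) x
  have eC : ∀ i x, crl v' i x = s * (Lam (z i) x - Lam (a i) x) := by
    intro i x
    have h : crl v' i x = crl a i x + crl z i x := by
      unfold crl
      rw [hva, hva, pd_add (has _) (hzs _), pd_add (has _) (hzs _)]
      ring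
    rw [h, ha, hz, crl_hp hv hdiv hs' i, crl_hp hv hdiv hs i]
    ring
  rw [h1, ← neg_neg (∑ i, ∫ x in cube, conv v' i x * Lam (v' i) x), ← h2]
  have i3 : ∀ i, IntegrableOn (fun x => crs v' (crl v') i x * Lam (v' i) x) cube :=
    fun i => ((crs_sp hvs (crl_sp hvs) i).mul (Lam_sp (hvs i))).int
  have i1 : ∀ i, IntegrableOn (fun x => crs v' (fun i => Lam (a i)) i x * Lam (z i) x) cube :=
    fun i => ((crs_sp hvs (fun i => Lam_sp (has i)) i).mul (Lam_sp (hzs i))).int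
  unfold TT
  rw [← integral_finsetSum _ fun i _ => i3 i, ← integral_finsetSum _ fun i _ => i1 i,
    ← integral_neg, ← integral_const_mul]
  congr 1
  funext x
  unfold crs
  simp only [eC, eL, Fin.sum_univ_three]
  simp only [Fin.isValue, Fin.reduceAdd, zero_add]
  ring

theorem TT_add {v a f h : Fin 3 → V → ℝ} (hv : ∀ i, SP (v i)) (ha : ∀ i, SP (a i))
    (hf : ∀ i, SP (f i)) (hh : ∀ i, SP (h i)) :
    TT v a (fun i x => f i x + h i x) = TT v a f + TT v a h := by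
  unfold TT
  rw [← Finset.sum_add_distrib]
  refine Finset.sum_congr rfl fun i _ => ?_
  have hc := crs_sp hv (fun i => Lam_sp (ha i)) i
  rw [← integral_add (hc.mul (Lam_sp (hf i))).int (hc.mul (Lam_sp (hh i))).int]
  congr 1
  funext x
  have e : Lam (fun x => f i x + h i x) x = Lam (f i) x + Lam (h i) x :=
    congrFun (Mlt_add sym_lam (hf i) (hh i)) x
  rw [e]
  ring

/-- **the static inequality** -/
theorem static3 : ∃ K : ℝ, 0 ≤ K ∧ ∀ θ : ℝ, 0 ≤ θ → θ < 1 → ∀ (a' : ℝ) (P : ℝ≥0∞)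
    (y : ℝ), 0 < a' → a' ≤ 1 → 3 * (P⁻¹).toReal = 2 * y → P ≠ 0 → 0 ≤ y → 2 * y < 1 + a' →
    ∀ ε : ℝ, 0 < ε → ∃ C : ℝ, 0 ≤ C ∧
    ∀ (v : V → V) (y' w h : Fin 3 → V → ℝ) (s β₁ β₂ γ : ℝ), (s = 1 ∨ s = -1) →
      (∀ i, SP fun x => v x i) → (∀ x, ∑ i, pd i (fun y => v y i) x = 0) →
      0 ≤ β₁ → 0 ≤ β₂ → 0 ≤ γ → (∀ i, SP (h i)) → (∀ i x, crl h i x = s * Lam (h i) x) →
      (∀ x, ∑ i, pd i (h i) x = 0) →
      (∀ i, IntegrableOn (y' i) cube) → (∀ i, IntegrableOn (w i) cube) →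
      (∀ i, ∀ᵐ x ∂(volume.restrict cube), hp s (fun i x => v x i) i x
        = y' i x + w i x + h i x) →
      (∀ i, Mul 1 β₁ (y' i)) → (∀ i, Mul θ β₂ (w i)) →
      (∀ τ : ℝ, 0 < τ → eLpNorm (fun x => NS.len (fun i => NS.pois τ (Lam (h i)) x)) P
        (volume.restrict cube) ≤ ENNReal.ofReal (γ * τ ^ (a' - 1))) →
      |∑ i, ∫ x in cube, conv (fun i x => v x i) i x * Lam (fun x => v x i) x|
          ≤ (K * β₁ + ε) * Dn (fun i x => v x i)
            + C * ((β₂ ^ (2 / (1 - θ)) + γ ^ (2 / (1 + a' - 2 * y))) * En (fun i x => v x i)) := by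
  obtain ⟨K, hK, h1⟩ := lin_bd
  refine ⟨K, hK, fun θ hθ0 hθ1 a' P y ha0 ha1 hy hP0 hy0 hya ε hε => ?_⟩
  obtain ⟨C1, hC1, h1⟩ := h1 θ hθ0 hθ1 (ε / 2) (by positivity)
  obtain ⟨K2, hK2, h2⟩ := tri_fn ha0 ha1 hy hP0 hy0 (by linarith)
  obtain ⟨C2, hC2, h3⟩ := NS.young2 (θ := 1 + 2 * y - a') (ε := ε / 2) (K := 6 * K2)
    (by linarith) (by linarith) (by positivity) (by positivity)
  refine ⟨max C1 C2, hC1.trans (le_max_left _ _), fun v y' w h s β₁ β₂ γ hs hv hdiv hβ₁ hβ₂ hγ hh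
    hch hdh hiy hiw hae hmy hmw hb => ?_⟩
  set u : Fin 3 → V → ℝ := fun i x => v x i with hu
  have hs' : s * s = 1 := by rcases hs with h | h <;> rw [h] <;> norm_num
  have hzs : ∀ i, SP (hp s u i) := hp_sp s hv
  have has : ∀ i, SP (hp (-s) u i) := hp_sp (-s) hv
  have hvs : ∀ i, SP (Mlt nz (u i)) := fun i => Mlt_sp sym_nz (hv i)
  set f : Fin 3 → V → ℝ := fun i x => hp s u i x - h i x with hf
  have hfs : ∀ i, SP (f i) := fun i => (hzs i).sub (hh i)
  have hcf : ∀ i x, crl f i x = s * Lam (f i) x := by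
    intro i x
    have e1 : crl f i x = crl (hp s u) i x - crl h i x := by
      unfold crl
      rw [hf]
      rw [pd_sub (hzs _) (hh _), pd_sub (hzs _) (hh _)]
      ring
    have e2 : Lam (f i) x = Lam (hp s u i) x - Lam (h i) x :=
      congrFun (Mlt_sub sym_lam (hzs i) (hh i)) x
    rw [e1, e2, crl_hp hv hdiv hs' i, hch]
    ring
  have hdf : ∀ x, ∑ i, pd i (f i) x = 0 := by
    intro x
    have e : ∀ i, pd i (f i) x = pd i (hp s u i) x - pd i (h i) x := fun i =>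
      pd_sub (hzs i) (hh i) i x
    simp_rw [e]
    rw [Finset.sum_sub_distrib, div_hp hv hdiv s, hdh, sub_zero]
  have hsp : ∀ i, Split θ β₁ β₂ (f i) (y' i) (w i) := fun i =>
    ⟨hiy i, hiw i, by
      filter_upwards [hae i] with x hx
      show hp s u i x - h i x = _
      rw [hx]
      ring, hmy i, hmw i⟩
  have e1 := h1 u f y' w s β₁ β₂ hv hdiv hs' hβ₁ hβ₂ hfs hcf hdf hsp
  have e2 := h2 v h s γ hs hv hdiv hh hch hdh hγ hb
  have hz : hp s u = fun i x => f i x + h i x := by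
    funext i x
    show _ = hp s u i x - h i x + h i x
    ring
  have e3 : ∑ i, ∫ x in cube, conv u i x * Lam (u i) x
      = s * (2 * TT (fun i => Mlt nz (u i)) (hp (-s) u) f)
        + s * (2 * TT (fun i => Mlt nz (u i)) (hp (-s) u) h) := by
    have hz' : TT (fun i => Mlt nz (u i)) (hp (-s) u) (hp s u)
        = TT (fun i => Mlt nz (u i)) (hp (-s) u) f
          + TT (fun i => Mlt nz (u i)) (hp (-s) u) h := by
      rw [← TT_add hvs has hfs hh]
      exact congrArg (TT _ _) hz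
    have h0 := conv_TT (v := u) hv hdiv hs'
    rw [h0, hz']
    ring
  have hs1 : |s| = 1 := by rcases hs with h | h <;> rw [h] <;> simp
  have e4 : |∑ i, ∫ x in cube, conv u i x * Lam (u i) x|
      ≤ |2 * TT (fun i => Mlt nz (u i)) (hp (-s) u) f|
        + 2 * |TT (fun i => Mlt nz (u i)) (hp (-s) u) h| := by
    rw [e3]
    refine (abs_add_le _ _).trans ?_
    rw [abs_mul s, abs_mul s, hs1, one_mul, one_mul, abs_mul 2 (TT _ _ h), abs_two]
  have hvv : SPV v := ⟨contDiff_pi.2 fun i => (hv i).smooth, fun j x => funext fun i =>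
    (hv i).per j x⟩
  have e5 := NS.Es_interp (s := 1 / 2) (θ := 1 / 2 + y - a' / 2) (by norm_num) (by norm_num)
    (by linarith) (by linarith) hvv
  rw [show (1 / 2 : ℝ) + (1 / 2 + y - a' / 2) = 1 + y - a' / 2 by ring] at e5
  have e6 := h3 γ (NS.Es (1 / 2) v) (NS.Es (1 / 2 + 1) v) hγ (NS.Es_nonneg _ _)
    (NS.Es_nonneg _ _)
  rw [show (2 - (1 + 2 * y - a')) / 2 = 1 - (1 / 2 + y - a' / 2) by ring,
    show (1 + 2 * y - a') / 2 = 1 / 2 + y - a' / 2 by ring,
    show 2 / (2 - (1 + 2 * y - a')) = 2 / (1 + a' - 2 * y) by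
      rw [show 2 - (1 + 2 * y - a') = 1 + a' - 2 * y by ring]] at e6
  have e7 : 2 * |TT (fun i => Mlt nz (u i)) (hp (-s) u) h|
      ≤ ε / 2 * NS.Es (1 / 2 + 1) v + C2 * γ ^ (2 / (1 + a' - 2 * y)) * NS.Es (1 / 2) v := by
    have a1 := mul_le_mul_of_nonneg_left e5 (mul_nonneg hK2 hγ)
    have a2 : K2 * γ * (3 * (NS.Es (1 / 2) v ^ (1 - (1 / 2 + y - a' / 2))
        * NS.Es (1 / 2 + 1) v ^ (1 / 2 + y - a' / 2))) * 2
        = 6 * K2 * γ * (NS.Es (1 / 2) v ^ (1 - (1 / 2 + y - a' / 2))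
        * NS.Es (1 / 2 + 1) v ^ (1 / 2 + y - a' / 2)) := by ring
    linarith
  rw [Es_half, Es_32] at e7
  have hEn := En_nonneg u
  have hB0 : 0 ≤ β₂ ^ (2 / (1 - θ)) := Real.rpow_nonneg hβ₂ _
  have hG0 : 0 ≤ γ ^ (2 / (1 + a' - 2 * y)) := Real.rpow_nonneg hγ _
  have m1 : C1 * (β₂ ^ (2 / (1 - θ)) * En u) ≤ max C1 C2 * (β₂ ^ (2 / (1 - θ)) * En u) :=
    mul_le_mul_of_nonneg_right (le_max_left _ _) (mul_nonneg hB0 hEn)
  have m2 : C2 * (γ ^ (2 / (1 + a' - 2 * y)) * En u) ≤ max C1 C2 * (γ ^ (2 / (1 + a' - 2 * y)) * En u) :=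
    mul_le_mul_of_nonneg_right (le_max_right _ _) (mul_nonneg hG0 hEn)
  have m3 : C2 * γ ^ (2 / (1 + a' - 2 * y)) * En u = C2 * (γ ^ (2 / (1 + a' - 2 * y)) * En u) := by ring
  rw [m3] at e7
  refine e4.trans ((add_le_add e1 e7).trans ?_)
  have m4 : max C1 C2 * ((β₂ ^ (2 / (1 - θ)) + γ ^ (2 / (1 + a' - 2 * y))) * En u)
      = max C1 C2 * (β₂ ^ (2 / (1 - θ)) * En u) + max C1 C2 * (γ ^ (2 / (1 + a' - 2 * y)) * En u) := by
    ring
  rw [m4]
  linarith

end Pool.Agent.U172.SS
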