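import Pool.Agent.U172.SS.Comb

set_option autoImplicit false

/-!
The criterion for one helical part in a sum space.
-/

open MeasureTheory Set Filter Topology
open scoped ContDiff ComplexConjugate RealInnerProductSpace ENNReal

namespace Pool.Agent.U172.SS

open H459R3.NS Pool.Agent.Q63.Win Pool.Agent.U583.HC

theorem curl_crl (z : V → V) (i : Fin 3) (x : V) :
    NS.curl z x i = crl (fun i y => z y i) i x := by
  unfold NS.curl crl
  fin_cases i
  · rfl
  · rfl
  · rfl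

theorem frac_Lam (f : V → ℝ) (x : V) : NS.frac (1 / 2) f x = Lam f x := by
  unfold NS.frac Lam Mlt rf
  congr 2
  funext k
  have : NS.wt (1 / 2) k = lam k := lamlam k
  rw [this]

theorem Lam_hp {s : ℝ} {v : Fin 3 → V → ℝ} (hv : ∀ i, SP (v i)) (i : Fin 3) :
    Lam (hp s v i) = fun x => 1 / 2 * (Lam (v i) x + s * crl v i x) := by
  have hL := Lam_sp (hv i)
  have hc := crl_sp hv i
  refine SP.ext (Lam_sp (hp_sp s hv i)) (SP.smul _ (hL.add (SP.smul s hc))) ?_
  funext k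
  rw [fr_Lam (hp_sp s hv i), fr_hp s hv, fr_smul, fr_add hL (SP.smul s hc), fr_smul, fr_Lam (hv i)]
  have hcrl0 : fr (crl v i) 0 = 0 := by
    have := fr_sub ((hv (i + 2)).pd (i + 1)) ((hv (i + 1)).pd (i + 2)) 0
    rw [fr_pd_zero (hv _), fr_pd_zero (hv _), sub_zero] at this
    exact this
  have e1 : ((lam k : ℝ) : ℂ) * ((il k : ℝ) : ℂ) = ((nz k : ℝ) : ℂ) := by
    rw [← Complex.ofReal_mul, lam_il]
  have e2 : ((nz k : ℝ) : ℂ) * fr (crl v i) k = fr (crl v i) k := by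
    unfold nz
    split_ifs with hk
    · rw [hk, hcrl0]; simp
    · simp
  have e3 : ((lam k : ℝ) : ℂ) * ((nz k : ℝ) : ℂ) = ((lam k : ℝ) : ℂ) := by
    unfold nz
    split_ifs with hk
    · rw [hk, lam_zero]; simp
    · simp
  push_cast
  linear_combination (1 / 2 * fr (v i) k) * e3 + (1 / 2 * (s : ℂ) * fr (crl v i) k) * e1
    + (1 / 2 * (s : ℂ)) * e2

theorem helVort_eq {s : ℝ} (hs : s = 1 ∨ s = -1) {z : V → V} (hz : ∀ i, SP fun y => z y i)
    (i : Fin 3) : (fun x => NS.helVort s z x i) = fun x => s * Lam (hp s (fun i y => z y i) i) x := by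
  funext x
  have hs' : s * s = 1 := by rcases hs with h | h <;> rw [h] <;> norm_num
  rw [Lam_hp hz]
  unfold NS.helVort
  have e : NS.fracV (1 / 2) z x i = Lam (fun y => z y i) x := frac_Lam _ x
  rw [curl_crl, e]
  linear_combination (-(1 / 2) * crl (fun i y => z y i) i x) * hs'

theorem norm_helVort {s : ℝ} (hs : s = 1 ∨ s = -1) {z : V → V} (hz : ∀ i, SP fun y => z y i)
    (τ : ℝ) (P : ℝ≥0∞) :
    eLpNorm (fun x => NS.len (fun i => NS.pois τ (Lam (hp s (fun i y => z y i) i)) x)) P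
      (volume.restrict cube)
      = eLpNorm (fun x => NS.len (NS.poisV τ (NS.helVort s z) x)) P (volume.restrict cube) := by
  congr 1
  funext x
  have e : ∀ i, NS.poisV τ (NS.helVort s z) x i
      = s * NS.pois τ (Lam (hp s (fun i y => z y i) i)) x := by
    intro i
    show NS.pois τ (fun y => NS.helVort s z y i) x = _
    rw [helVort_eq hs hz, NS.pois_smul]
  unfold NS.len
  congr 1
  refine Finset.sum_congr rfl fun i _ => ?_
  rw [e, mul_pow]
  rcases hs with h | h <;> rw [h] <;> ring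

variable {ν T : ℝ} {u : ℝ → V → V} {Q : ℝ → V → ℝ}

theorem prodH_eq (h : IsSol ν T u Q) {t : ℝ} (ht : t ∈ Ico 0 T) :
    NS.prodH (u t) = -(2 * Wt u t) := by
  have hv := NS.spv_of_sol h ht
  have h1 := NS.nl_eq hv (h.divfree t ht) (s := 1 / 2) (by norm_num)
  unfold NS.prodH Pool.Agent.U583.HC.Wt
  rw [← h1]
  have e : ∀ i, ∫ x in cube, NS.frac (1 / 2) (fun y => u t y i) x * conv (fun i y => u t y i) i x
      = ∫ x in cube, conv (fun i y => u t y i) i x * Lam (fun y => u t y i) x := by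
    intro i
    congr 1
    funext x
    rw [frac_Lam, mul_comm]
  simp_rw [e]
  ring

open Classical in
/-- the criterion at almost every time -/
theorem fin_ae (h : IsSol ν T u Q) (hν : 0 < ν) {g : ℝ → ℝ} (hg0 : ∀ t ∈ Ioo 0 T, 0 ≤ g t)
    (hgi : IntegrableOn g (Ioo 0 T))
    (hd : ∀ᵐ t ∂(volume.restrict (Ioo 0 T)),
      -(2 * ν * Dt u t) - 2 * Wt u t ≤ -(ν * Dt u t) + g t * Et u t) :
    (∀ t ∈ Ico 0 T, half (u t) ≤ half (u 0) * Real.exp (∫ s in Ioo 0 t, g s)) ∧
      ∃ M, ∀ t ∈ Ico 0 T, ∀ x i, |u t x i| ≤ M := by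
  obtain ⟨K, hK, hst⟩ := static
  obtain ⟨C0, hC0, hineq⟩ := hst 0 le_rfl one_pos (ν / 4) (by positivity)
  have hex : ∀ t, ∃ b : ℝ, t ∈ Ioo 0 T → 0 ≤ b ∧
      -(2 * ν * Dt u t) - 2 * Wt u t ≤ -(ν * Dt u t) + b * Et u t := by
    intro t
    by_cases ht : t ∈ Ioo 0 T
    · have hI : t ∈ Ico 0 T := ⟨ht.1.le, ht.2⟩
      obtain ⟨b, hb, σ, y, w, hσ, he, hyi, hwi, hy, hw⟩ := good_self (θ := 0) (v := u t) le_rfl
        (le_refl (0 : ℝ)) fun i => h.sp hI i
      have hs : σ * σ = 1 := by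
        rcases hσ with h1 | h1
        · rw [h1]; norm_num
        · rw [h1]; norm_num
      have he' : ∀ i, ∀ᵐ x ∂(volume.restrict cube),
          hp σ (fun i y => u t y i) i x = y x i + w x i := by
        intro i
        filter_upwards [he] with x hx
        rw [← hel_eq (fun i => h.sp hI i), hx]
        rfl
      have h1 := hineq (fun i y => u t y i) (fun i x => y x i) (fun i x => w x i) σ 0 b
        (fun i => h.sp hI i) (h.divfree t hI) hs le_rfl hb
        fun i => ⟨hyi i, hwi i, he' i, hy i, hw i⟩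
      have h2 : |Wt u t| ≤ (K * 0 + ν / 4) * Dt u t
        + C0 * (b ^ (2 / (1 - (0 : ℝ))) * Et u t) := h1
      have hbb : 0 ≤ b ^ (2 / (1 - (0 : ℝ))) := Real.rpow_nonneg hb _
      refine ⟨2 * (C0 * b ^ (2 / (1 - (0 : ℝ)))), fun _ => ⟨by positivity, ?_⟩⟩
      have h5 := neg_abs_le (Wt u t)
      have h6 := mul_nonneg hν.le (Dt_nonneg u t)
      have h7 : 2 * (C0 * b ^ (2 / (1 - (0 : ℝ)))) * Et u t
        = 2 * (C0 * (b ^ (2 / (1 - (0 : ℝ))) * Et u t)) := by ring
      rw [h7]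
      rw [mul_zero, zero_add] at h2
      have h8 : ν / 4 * Dt u t = (ν * Dt u t) / 4 := by ring
      rw [h8] at h2
      linarith
    · exact ⟨0, fun h => absurd h ht⟩
  choose b hb using hex
  set P : ℝ → Prop := fun t => -(2 * ν * Dt u t) - 2 * Wt u t ≤ -(ν * Dt u t) + g t * Et u t
    with hP
  set g' : ℝ → ℝ := fun t => if P t then g t else b t with hg'
  have hg'0 : ∀ t ∈ Ioo 0 T, 0 ≤ g' t := by
    intro t ht
    simp only [hg']
    split_ifs
    · exact hg0 t ht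
    · exact (hb t ht).1
  have hae : g' =ᵐ[volume.restrict (Ioo 0 T)] g := by
    filter_upwards [hd] with t ht
    simp only [hg']
    exact if_pos ht
  have hgi' : IntegrableOn g' (Ioo 0 T) := (integrable_congr hae).2 hgi
  have hd' : ∀ t ∈ Ioo 0 T, -(2 * ν * Dt u t) - 2 * Wt u t ≤ -(ν * Dt u t) + g' t * Et u t := by
    intro t ht
    simp only [hg']
    split_ifs with h1
    · exact h1
    · exact (hb t ht).2
  refine ⟨fun t ht => ?_, bounded_of_key h hν hg'0 hgi' hd'⟩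
  have hT : 0 < T := ht.1.trans_lt ht.2
  have h1 := Et_bound0 h hν hg'0 hgi' hd' ht
  have h2 : ∫ s in Ioo 0 t, g' s = ∫ s in Ioo 0 t, g s :=
    integral_congr_ae (ae_mono (Measure.restrict_mono (Ioo_subset_Ioo_right ht.2.le) le_rfl) hae)
  rw [h2] at h1
  rw [half_eq fun i => h.sp ht i, half_eq fun i => h.sp ⟨le_rfl, hT⟩ i]
  exact h1

/-- the hypothesis on one helical part at one time -/
def Good3 (θ b b' a : ℝ) (P : ℝ≥0∞) (g : ℝ) (v : V → V) : Prop :=
  ∃ (σ : ℝ) (y w z : V → V), (σ = 1 ∨ σ = -1) ∧ SPV z ∧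
    (∀ x, ∑ i, pd i (fun y => z y i) x = 0) ∧
    (∀ᵐ x ∂(volume.restrict cube), hel σ v x = y x + w x + hel σ z x) ∧
    (∀ i, IntegrableOn (fun x => y x i) cube) ∧ (∀ i, IntegrableOn (fun x => w x i) cube) ∧
    (∀ i, Mul 1 b (fun x => y x i)) ∧ (∀ i, Mul θ b' (fun x => w x i)) ∧
    NS.BesovLe a P (NS.helVort σ z) g

/-- the condition on the smaller helical part of the vorticity -/
def MinLe (r g : ℝ) (v : V → V) : Prop :=
  eLpNorm (fun x => min (NS.len (NS.helVort 1 v x)) (NS.len (NS.helVort (-1) v x)))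
    (ENNReal.ofReal r) (volume.restrict cube) ≤ ENNReal.ofReal g

theorem main0 : ∃ c : ℝ, 0 < c ∧ ∀ θ : ℝ, 0 ≤ θ → θ < 1 → ∀ (a : ℝ) (P : ℝ≥0∞) (y r n : ℝ),
    0 < a → a ≤ 1 → 3 * (P⁻¹).toReal = 2 * y → P ≠ 0 → 0 ≤ y → 2 * y < 1 + a →
    3 / 2 < r → r ≤ 6 → 3 / r + 2 / n = 2 →
    ∀ ν : ℝ, 0 < ν → ∃ C : ℝ, 0 ≤ C ∧
    ∀ (T : ℝ) (u : ℝ → V → V) (Q : ℝ → V → ℝ) (β γ δ : ℝ → ℝ),
      IsSol ν T u Q → (∀ t ∈ Ioo 0 T, 0 ≤ β t ∧ 0 ≤ γ t ∧ 0 ≤ δ t) →
      IntegrableOn (fun t => β t ^ (2 / (1 - θ))) (Ioo 0 T) →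
      IntegrableOn (fun t => γ t ^ (2 / (1 + a - 2 * y))) (Ioo 0 T) →
      IntegrableOn (fun t => δ t ^ n) (Ioo 0 T) →
      (∀ᵐ t ∂(volume.restrict (Ioo 0 T)), Good3 θ (c * ν) (β t) a P (γ t) (u t) ∨
        MinLe r (δ t) (u t)) →
      (∀ t ∈ Ico 0 T, half (u t) ≤ half (u 0) * Real.exp (C * ∫ s in Ioo 0 t,
        (β s ^ (2 / (1 - θ)) + γ s ^ (2 / (1 + a - 2 * y)) + δ s ^ n))) ∧
      ∃ M, ∀ t ∈ Ico 0 T, ∀ x i, |u t x i| ≤ M := by
  obtain ⟨K, hK, hst⟩ := static3
  set c : ℝ := 1 / (4 * (K + 1)) with hc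
  have hc0 : 0 < c := by positivity
  have hcK : K * c ≤ 1 / 4 := by
    rw [hc, mul_one_div, div_le_div_iff₀ (by positivity) (by norm_num)]
    nlinarith
  refine ⟨c, hc0, fun θ hθ0 hθ1 a P y r n ha0 ha1 hy hP0 hy0 hya hr1 hr2 hn ν hν => ?_⟩
  obtain ⟨C0, hC0, hineq⟩ := hst θ hθ0 hθ1 a P y ha0 ha1 hy hP0 hy0 hya (ν / 4) (by positivity)
  obtain ⟨C1, hC1, hmin⟩ := NS.lamb_step (r := r) (m := n) (κ := 0) (ν := ν) hr1 hr2
    (by linarith) hν one_pos
  set C := max (2 * C0) C1 with hC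
  have hC' : 0 ≤ C := hC1.trans (le_max_right _ _)
  refine ⟨C, hC', fun T u Q β γ δ h h0 hβi hγi hδi hu => ?_⟩
  set g : ℝ → ℝ := fun t => C * (β t ^ (2 / (1 - θ)) + γ t ^ (2 / (1 + a - 2 * y)) + δ t ^ n) with hg
  have hg0 : ∀ t ∈ Ioo 0 T, 0 ≤ g t := by
    intro t ht
    obtain ⟨a1, a2, a3⟩ := h0 t ht
    have b1 := Real.rpow_nonneg a1 (2 / (1 - θ))
    have b2 := Real.rpow_nonneg a2 (2 / (1 + a - 2 * y))
    have b3 := Real.rpow_nonneg a3 n
    exact mul_nonneg hC' (by linarith)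
  have hgi : IntegrableOn g (Ioo 0 T) := ((hβi.add hγi).add hδi).const_mul C
  have key := fin_ae h hν hg0 hgi ?_
  · refine ⟨fun t ht => ?_, key.2⟩
    have h1 := key.1 t ht
    rw [integral_const_mul] at h1
    exact h1
  · filter_upwards [hu, ae_restrict_mem measurableSet_Ioo] with t ht htI
    have hI : t ∈ Ico 0 T := ⟨htI.1.le, htI.2⟩
    obtain ⟨a1, a2, a3⟩ := h0 t htI
    have b1 := Real.rpow_nonneg a1 (2 / (1 - θ))
    have b2 := Real.rpow_nonneg a2 (2 / (1 + a - 2 * y))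
    have b3 := Real.rpow_nonneg a3 n
    have hE := Et_nonneg u t
    have hD := Dt_nonneg u t
    rcases ht with ⟨σ, y', w, z, hσ, hz, hdz, he, hyi, hwi, hmy, hmw, hb⟩ | hm
    · have hzs : ∀ i, SP fun y => z y i := fun i => hz.sp i
      have hs : σ * σ = 1 := by
        rcases hσ with h1 | h1
        · rw [h1]; norm_num
        · rw [h1]; norm_num
      have h1 := hineq (u t) (fun i x => y' x i) (fun i x => w x i)
        (hp σ fun i y => z y i) σ (c * ν) (β t) (γ t) hσ (fun i => h.sp hI i) (h.divfree t hI)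
        (by positivity) a1 a2 (fun i => hp_sp σ hzs i)
        (fun i x => congrFun (crl_hp hzs hdz hs i) x) (div_hp hzs hdz σ) hyi hwi
        (fun i => by
          filter_upwards [he] with x hx
          have e1 := hel_eq (fun i => h.sp hI i) σ i x
          have e2 := hel_eq hzs σ i x
          rw [← e1, ← e2, hx]
          rfl) hmy hmw
        (fun τ hτ => by
          rw [norm_helVort hσ hzs]
          exact hb τ hτ)
      have h2 : |Wt u t| ≤ (K * (c * ν) + ν / 4) * Dt u t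
        + C0 * ((β t ^ (2 / (1 - θ)) + γ t ^ (2 / (1 + a - 2 * y))) * Et u t) := h1
      have h3 : K * (c * ν) + ν / 4 ≤ ν / 2 := by
        have : K * (c * ν) = (K * c) * ν := by ring
        rw [this]
        have := mul_le_mul_of_nonneg_right hcK hν.le
        linarith
      have h4 := mul_le_mul_of_nonneg_right h3 hD
      have h5 := neg_abs_le (Wt u t)
      have h6 : 2 * C0 * ((β t ^ (2 / (1 - θ)) + γ t ^ (2 / (1 + a - 2 * y))) * Et u t)
          ≤ g t * Et u t := by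
        simp only [hg]
        rw [mul_assoc C]
        refine mul_le_mul (le_max_left _ _) ?_ (by positivity) hC'
        exact mul_le_mul_of_nonneg_right (by linarith) hE
      linarith
    · have hv := NS.spv_of_sol h hI
      have hz : SP (fun _ => (0 : ℝ)) := ⟨contDiff_const, fun _ _ => rfl⟩
      have h1 := hmin (u t) (δ t) hv (h.divfree t hI) a3 ⟨fun x => min (NS.len (NS.helVort 1 (u t) x))
        (NS.len (NS.helVort (-1) (u t) x)), fun _ => 0,
        fun _ => 0, ((NS.cont_len (NS.helVort_cont 1 hv)).min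
          (NS.cont_len (NS.helVort_cont (-1) hv))).aestronglyMeasurable, hm, hz, hz, by
        refine Filter.Eventually.of_forall fun x => ?_
        have h3 : ∀ a : V, NS.dot a (NS.grad (fun _ => (0 : ℝ)) x) = 0 := by
          intro a
          unfold NS.dot NS.grad pd
          simp
        rw [h3, h3]
        have := NS.lamb_hel (u t) x
        linarith⟩
      rw [prodH_eq h hI, Es_half, Es_32, sub_zero, one_mul] at h1
      have h2 : -(2 * ν * Dt u t) + -(2 * Wt u t) ≤ -(ν * Dt u t)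
        + C1 * δ t ^ n * Et u t := h1
      have h6 : C1 * δ t ^ n * Et u t ≤ g t * Et u t := by
        refine mul_le_mul_of_nonneg_right ?_ hE
        simp only [hg]
        exact mul_le_mul (le_max_right _ _) (by linarith) b3 hC'
      linarith

end Pool.Agent.U172.SS
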