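import Pool.Agent.U583.HC.Bnd2

set_option autoImplicit false

/-!
The nonlinear term at the level of the half derivative as a linear functional of one helical part.
-/

open MeasureTheory Set Filter Topology
open scoped ContDiff ComplexConjugate RealInnerProductSpace ENNReal

namespace Pool.Agent.U172.SS

open H459R3.NS Pool.Agent.Q63.Win Pool.Agent.U583.HC

/-- the functional -/
noncomputable def TT (v a h : Fin 3 → V → ℝ) : ℝ :=
  ∑ i, ∫ x in cube, crs v (fun i => Lam (a i)) i x * Lam (h i) x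

theorem crs_crl {v w : Fin 3 → V → ℝ} (hv : ∀ i, SP (v i)) (hw : ∀ i, SP (w i)) (i : Fin 3)
    (x : V) : crs v (crl w) i x = pd i (fun y => ∑ j, v j y * w j y) x
      - (∑ j, w j x * pd i (v j) x) - ∑ j, v j x * pd j (w i) x := by
  have h1 : pd i (fun y => ∑ j, v j y * w j y) x
      = ∑ j, (v j x * pd i (w j) x + pd i (v j) x * w j x) := by
    rw [pd_sum (s := Finset.univ) (f := fun j y => v j y * w j y) fun j _ => (hv j).mul (hw j)]
    exact Finset.sum_congr rfl fun j _ => pd_mul (hv j) (hw j) i x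
  rw [h1]
  unfold crs crl
  simp only [Fin.sum_univ_three]
  fin_cases i
  all_goals
    simp only [Fin.zero_eta, Fin.mk_one, Fin.reduceFinMk, Fin.isValue, Fin.reduceAdd, zero_add]
    ring

theorem crl_Lam {a : Fin 3 → V → ℝ} (ha : ∀ i, SP (a i)) (i : Fin 3) :
    crl (fun i => Lam (a i)) i = Lam (crl a i) := by
  have h := Mlt_sub sym_lam ((ha (i + 2)).pd (i + 1)) ((ha (i + 1)).pd (i + 2))
  have e : Lam (crl a i) = Mlt lam fun x => pd (i + 1) (a (i + 2)) x - pd (i + 2) (a (i + 1)) x :=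
    rfl
  rw [e, h]
  funext x
  show pd (i + 1) (Lam (a (i + 2))) x - pd (i + 2) (Lam (a (i + 1))) x = _
  rw [pd_Lam (ha _), pd_Lam (ha _)]
  rfl

section

variable {v a f : Fin 3 → V → ℝ} (hv : ∀ i, SP (v i)) (ha : ∀ i, SP (a i)) (hf : ∀ i, SP (f i))
  {s : ℝ} (hs : s * s = 1) (hca : ∀ i x, crl a i x = s * Lam (a i) x)
  (hcf : ∀ i x, crl f i x = -s * Lam (f i) x)
  (hdv : ∀ x, ∑ i, pd i (v i) x = 0) (hda : ∀ x, ∑ i, pd i (a i) x = 0)
  (hdf : ∀ x, ∑ i, pd i (f i) x = 0)

include hv ha hf hs hcf hdv hda in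
theorem G1 : TT v a f
    = -s * ∑ i, ∫ x in cube, ((∑ j, Lam (a j) x * pd j (v i) x) - ∑ j, v j x * pd j (Lam (a i)) x)
      * f i x := by
  have hL : ∀ i, SP (Lam (a i)) := fun i => Lam_sp (ha i)
  have e1 : ∀ i, ∫ x in cube, crs v (fun i => Lam (a i)) i x * Lam (f i) x
      = -s * ∫ x in cube, crs v (fun i => Lam (a i)) i x * crl f i x := by
    intro i
    rw [← integral_const_mul]
    congr 1
    funext x
    rw [hcf]
    linear_combination (-(crs v (fun i => Lam (a i)) i x * Lam (f i) x)) * hs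
  unfold TT
  simp_rw [e1]
  rw [← Finset.mul_sum, ibp_crl (crs_sp hv hL) hf]
  congr 1
  refine Finset.sum_congr rfl fun i _ => ?_
  congr 1
  funext x
  rw [crl_crs hv hL, hdv x, div_Lam ha hda x]
  ring

include ha hs hca in
theorem Lam_Lam_eq (i : Fin 3) (x : V) :
    Lam (Lam (a i)) x = s * crl (fun i => Lam (a i)) i x := by
  rw [crl_Lam ha]
  have e : crl a i = fun x => s * Lam (a i) x := funext fun x => hca i x
  rw [e]
  have h := congrFun (Mlt_smul sym_lam s (Lam_sp (ha i))) x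
  have h' : Lam (fun x => s * Lam (a i) x) x = s * Lam (Lam (a i)) x := h
  rw [h']
  linear_combination (-(Lam (Lam (a i)) x)) * hs

include hv ha in
theorem Lam_crs (i : Fin 3) (x : V) : Lam (crs v (fun i => Lam (a i)) i) x
    = crs v (fun i => Lam (Lam (a i))) i x + crs (fun i => Lam (v i)) (fun i => Lam (a i)) i x
      - (Gam (v (i + 1)) (Lam (a (i + 2))) x - Gam (v (i + 2)) (Lam (a (i + 1))) x) := by
  have hL : ∀ i, SP (Lam (a i)) := fun i => Lam_sp (ha i)
  have h := congrFun (Mlt_sub sym_lam ((hv (i + 1)).mul (hL (i + 2)))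
    ((hv (i + 2)).mul (hL (i + 1)))) x
  have e : Lam (crs v (fun i => Lam (a i)) i) x
      = Lam (fun x => v (i + 1) x * Lam (a (i + 2)) x) x
        - Lam (fun x => v (i + 2) x * Lam (a (i + 1)) x) x := h
  rw [e]
  unfold Gam crs
  ring

include hv ha hf hs hca hdf in
theorem G2 : TT v a f
    = ∑ i, ∫ x in cube, (s * (-(∑ j, Lam (a j) x * pd i (v j) x)
        - ∑ j, v j x * pd j (Lam (a i)) x)
      + crs (fun i => Lam (v i)) (fun i => Lam (a i)) i x
      - (Gam (v (i + 1)) (Lam (a (i + 2))) x - Gam (v (i + 2)) (Lam (a (i + 1))) x)) * f i x := by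
  have hL : ∀ i, SP (Lam (a i)) := fun i => Lam_sp (ha i)
  have hLL : ∀ i, SP (Lam (Lam (a i))) := fun i => Lam_sp (hL i)
  have hG : SP (fun y => ∑ j, v j y * Lam (a j) y) := SP.sum fun j _ => (hv j).mul (hL j)
  have h0 := int_press hf hdf hG
  have e1 : ∀ i, ∫ x in cube, crs v (fun i => Lam (a i)) i x * Lam (f i) x
      = ∫ x in cube, Lam (crs v (fun i => Lam (a i)) i) x * f i x := fun i =>
    (Lam_self (crs_sp hv hL i) (hf i)).symm
  unfold TT
  simp_rw [e1]
  have e2 : ∀ i x, Lam (crs v (fun i => Lam (a i)) i) x * f i x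
      = s * (f i x * pd i (fun y => ∑ j, v j y * Lam (a j) y) x)
        + (s * (-(∑ j, Lam (a j) x * pd i (v j) x)
        - ∑ j, v j x * pd j (Lam (a i)) x)
      + crs (fun i => Lam (v i)) (fun i => Lam (a i)) i x
      - (Gam (v (i + 1)) (Lam (a (i + 2))) x - Gam (v (i + 2)) (Lam (a (i + 1))) x)) * f i x := by
    intro i x
    rw [Lam_crs hv ha]
    have e3 : crs v (fun i => Lam (Lam (a i))) i x = s * crs v (crl fun i => Lam (a i)) i x := by
      unfold crs
      simp only [Lam_Lam_eq ha hs hca]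
      ring
    rw [e3, crs_crl hv hL]
    ring
  have s2 : ∀ i, SP fun x => (s * (-(∑ j, Lam (a j) x * pd i (v j) x)
        - ∑ j, v j x * pd j (Lam (a i)) x)
      + crs (fun i => Lam (v i)) (fun i => Lam (a i)) i x
      - (Gam (v (i + 1)) (Lam (a (i + 2))) x - Gam (v (i + 2)) (Lam (a (i + 1))) x)) * f i x := by
    intro i
    have q1 : SP fun x => ∑ j, Lam (a j) x * pd i (v j) x := SP.sum fun j _ =>
      (hL j).mul ((hv j).pd i)
    have q2 : SP fun x => ∑ j, v j x * pd j (Lam (a i)) x := SP.sum fun j _ =>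
      (hv j).mul ((hL i).pd j)
    have q3 : SP fun x => s * (-(∑ j, Lam (a j) x * pd i (v j) x)
        - ∑ j, v j x * pd j (Lam (a i)) x) := by
      have := SP.smul s ((SP.smul (-1) q1).sub q2)
      convert this using 1
      funext x
      ring
    exact ((q3.add (crs_sp (fun i => Lam_sp (hv i)) hL i)).sub
      ((Gam_sp (hv _) (hL _)).sub (Gam_sp (hv _) (hL _)))).mul (hf i)
  have e4 : ∀ i, ∫ x in cube, Lam (crs v (fun i => Lam (a i)) i) x * f i x
      = s * (∫ x in cube, f i x * pd i (fun y => ∑ j, v j y * Lam (a j) y) x)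
        + ∫ x in cube, (s * (-(∑ j, Lam (a j) x * pd i (v j) x)
        - ∑ j, v j x * pd j (Lam (a i)) x)
      + crs (fun i => Lam (v i)) (fun i => Lam (a i)) i x
      - (Gam (v (i + 1)) (Lam (a (i + 2))) x - Gam (v (i + 2)) (Lam (a (i + 1))) x)) * f i x := by
    intro i
    simp_rw [e2]
    have i1 : IntegrableOn (fun x => s * (f i x * pd i (fun y => ∑ j, v j y * Lam (a j) y) x))
        cube := (((hf i).mul (hG.pd i)).int).const_mul _
    rw [integral_add i1 (s2 i).int, integral_const_mul]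
  simp_rw [e4]
  rw [Finset.sum_add_distrib, ← Finset.mul_sum, h0, mul_zero, zero_add]

include hv ha hf hs hca hcf hdv hda hdf in
/-- the identity -/
theorem G3 : 2 * TT v a f
    = ∑ i, ∫ x in cube, f i x * (-s * (∑ j, Lam (a j) x * (pd j (v i) x + pd i (v j) x))
      + crs (fun i => Lam (v i)) (fun i => Lam (a i)) i x
      - (Gam (v (i + 1)) (Lam (a (i + 2))) x - Gam (v (i + 2)) (Lam (a (i + 1))) x)) := by
  have hL : ∀ i, SP (Lam (a i)) := fun i => Lam_sp (ha i)
  have g1 := G1 hv ha hf hs hcf hdv hda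
  have g2 := G2 hv ha hf hs hca hdf
  have q1 : ∀ i, SP fun x => ∑ j, Lam (a j) x * pd i (v j) x := fun i => SP.sum fun j _ =>
      (hL j).mul ((hv j).pd i)
  have q1' : ∀ i, SP fun x => ∑ j, Lam (a j) x * pd j (v i) x := fun i => SP.sum fun j _ =>
      (hL j).mul ((hv i).pd j)
  have q2 : ∀ i, SP fun x => ∑ j, v j x * pd j (Lam (a i)) x := fun i => SP.sum fun j _ =>
      (hv j).mul ((hL i).pd j)
  have q3 : ∀ i, SP fun x => s * (-(∑ j, Lam (a j) x * pd i (v j) x)
        - ∑ j, v j x * pd j (Lam (a i)) x) := by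
    intro i
    have := SP.smul s ((SP.smul (-1) (q1 i)).sub (q2 i))
    convert this using 1
    funext x
    ring
  have s2 : ∀ i, SP fun x => (s * (-(∑ j, Lam (a j) x * pd i (v j) x)
        - ∑ j, v j x * pd j (Lam (a i)) x)
      + crs (fun i => Lam (v i)) (fun i => Lam (a i)) i x
      - (Gam (v (i + 1)) (Lam (a (i + 2))) x - Gam (v (i + 2)) (Lam (a (i + 1))) x)) * f i x :=
    fun i => (((q3 i).add (crs_sp (fun i => Lam_sp (hv i)) hL i)).sub
      ((Gam_sp (hv _) (hL _)).sub (Gam_sp (hv _) (hL _)))).mul (hf i)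
  have s1 : ∀ i, SP fun x => ((∑ j, Lam (a j) x * pd j (v i) x)
      - ∑ j, v j x * pd j (Lam (a i)) x) * f i x := fun i => ((q1' i).sub (q2 i)).mul (hf i)
  rw [two_mul]
  nth_rw 1 [g1]
  rw [g2, Finset.mul_sum, ← Finset.sum_add_distrib]
  refine Finset.sum_congr rfl fun i _ => ?_
  rw [← integral_const_mul, ← integral_add ((s1 i).int.const_mul _) (s2 i).int]
  congr 1
  funext x
  have e : ∑ j, Lam (a j) x * (pd j (v i) x + pd i (v j) x)
      = (∑ j, Lam (a j) x * pd j (v i) x) + ∑ j, Lam (a j) x * pd i (v j) x := by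
    rw [← Finset.sum_add_distrib]
    exact Finset.sum_congr rfl fun j _ => by ring
  rw [e]
  ring

end

end Pool.Agent.U172.SS
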