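import Pool.Agent.U172.SS.Lin

set_option autoImplicit false

/-!
The bound of the linear functional on fields which are sums of multipliers.
-/

open MeasureTheory Set Filter Topology
open scoped ContDiff ComplexConjugate RealInnerProductSpace ENNReal

namespace Pool.Agent.U172.SS

open H459R3.NS Pool.Agent.Q63.Win Pool.Agent.U583.HC

theorem WS_nz {φ : K3 → ℝ} (h0 : φ 0 = 0) {f : V → ℝ} (hf : SP f) :
    WS φ (Mlt nz f) = WS φ f := by
  unfold WS
  refine tsum_congr fun k => ?_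
  rw [fr_Mlt sym_nz hf]
  unfold nz
  split_ifs with hk
  · rw [hk, h0]; simp
  · simp

theorem Gam_lin {f g₁ g₂ : V → ℝ} (hf : SP f) (h1 : SP g₁) (h2 : SP g₂) (c : ℝ) (x : V) :
    Gam f (fun x => c * (g₁ x - g₂ x)) x = c * (Gam f g₁ x - Gam f g₂ x) := by
  have e1 : Lam (fun x => c * (g₁ x - g₂ x)) x = c * (Lam g₁ x - Lam g₂ x) := by
    have a1 := congrFun (Mlt_smul sym_lam c (h1.sub h2)) x
    have a2 := congrFun (Mlt_sub sym_lam h1 h2) x
    have a1' : Lam (fun x => c * (g₁ x - g₂ x)) x = c * Lam (fun x => g₁ x - g₂ x) x := a1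
    have a2' : Lam (fun x => g₁ x - g₂ x) x = Lam g₁ x - Lam g₂ x := a2
    rw [a1', a2']
  have e2 : Lam (fun y => f y * (c * (g₁ y - g₂ y))) x
      = c * (Lam (fun y => f y * g₁ y) x - Lam (fun y => f y * g₂ y) x) := by
    have e : (fun y => f y * (c * (g₁ y - g₂ y))) = fun y => c * (f y * g₁ y - f y * g₂ y) := by
      funext y
      ring
    rw [e]
    have a1 := congrFun (Mlt_smul sym_lam c ((hf.mul h1).sub (hf.mul h2))) x
    have a2 := congrFun (Mlt_sub sym_lam (hf.mul h1) (hf.mul h2)) x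
    have a1' : Lam (fun x => c * (f x * g₁ x - f x * g₂ x)) x
      = c * Lam (fun x => f x * g₁ x - f x * g₂ x) x := a1
    have a2' : Lam (fun x => f x * g₁ x - f x * g₂ x) x
      = Lam (fun x => f x * g₁ x) x - Lam (fun x => f x * g₂ x) x := a2
    rw [a1', a2']
  unfold Gam
  rw [e1, e2]
  ring

/-- the bound of the linear functional -/
theorem lin_bd : ∃ K : ℝ, 0 ≤ K ∧ ∀ θ : ℝ, 0 ≤ θ → θ < 1 → ∀ ε : ℝ, 0 < ε → ∃ C : ℝ, 0 ≤ C ∧
    ∀ (v f y w : Fin 3 → V → ℝ) (s β₁ β₂ : ℝ), (∀ i, SP (v i)) → (∀ x, ∑ i, pd i (v i) x = 0) →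
      s * s = 1 → 0 ≤ β₁ → 0 ≤ β₂ → (∀ i, SP (f i)) → (∀ i x, crl f i x = s * Lam (f i) x) →
      (∀ x, ∑ i, pd i (f i) x = 0) → (∀ i, Split θ β₁ β₂ (f i) (y i) (w i)) →
        |2 * TT (fun i => Mlt nz (v i)) (hp (-s) v) f|
          ≤ (K * β₁ + ε) * Dn v + C * (β₂ ^ (2 / (1 - θ)) * En v) := by
  obtain ⟨K, hK, hloc⟩ := loc_bd
  refine ⟨24 + 48 * K, by positivity, fun θ hθ0 hθ1 ε hε => ?_⟩
  obtain ⟨C1, hC1, h1⟩ := hloc θ hθ0 hθ1 (ε / 72) (by positivity)
  obtain ⟨C2, hC2, h2⟩ := gam_bd hθ0 hθ1 (by positivity : 0 < ε / 72)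
  refine ⟨12 * C2 + 48 * C1, by positivity,
    fun v f y w s β₁ β₂ hv hdiv hs hβ₁ hβ₂ hf hcf hdf hsp => ?_⟩
  set B := β₂ ^ (2 / (1 - θ)) with hB
  have hB0 : 0 ≤ B := Real.rpow_nonneg hβ₂ _
  set v' : Fin 3 → V → ℝ := fun i => Mlt nz (v i) with hv'
  set a := hp (-s) v with ha
  have hs' : -s * -s = 1 := by linarith
  have has : ∀ i, SP (a i) := hp_sp (-s) hv
  have hvs : ∀ i, SP (v' i) := fun i => Mlt_sp sym_nz (hv i)
  have ha0 : ∀ i, fr (a i) 0 = 0 := fr_hp_zero hv
  have hLa : ∀ i, SP (Lam (a i)) := fun i => Lam_sp (has i)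
  have hLv : ∀ i, SP (Lam (v' i)) := fun i => Lam_sp (hvs i)
  have hca : ∀ i x, crl a i x = -s * Lam (a i) x := fun i x => congrFun (crl_hp hv hdiv hs' i) x
  have hdv' : ∀ x, ∑ i, pd i (v' i) x = 0 := by
    intro x
    have : ∀ i, pd i (v' i) x = pd i (v i) x := fun i => congrFun (pd_nz (hv i) i) x
    simp_rw [this]
    exact hdiv x
  have hid := G3 (s := -s) hvs has hf hs' hca (fun i x => by rw [hcf, neg_neg]) hdv'
    (div_hp hv hdiv (-s)) hdf
  have hl3 : (fun k => lam k ^ 3) 0 = 0 := by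
    show lam 0 ^ 3 = 0
    rw [lam_zero]
    norm_num
  have hE : ∀ i, WS lam (a i) ≤ En v := WS_hp_le lam_nonneg pol_lam hs' hv
  have hE' : ∀ i, WS lam (v' i) ≤ En v := fun i => by
    rw [hv']
    simp only
    rw [WS_nz lam_zero (hv i)]
    exact Finset.single_le_sum (f := fun i => WS lam (v i)) (fun i _ => WS_nonneg lam_nonneg _)
      (Finset.mem_univ i)
  have hD : ∀ i, WS (fun k => lam k ^ 3) (a i) ≤ Dn v :=
    WS_hp_le lam3_nonneg (pol_pow pol_lam 3) hs' hv
  have hD' : ∀ i, WS (fun k => lam k ^ 3) (v' i) ≤ Dn v := fun i => by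
    rw [hv']
    simp only
    rw [WS_nz hl3 (hv i)]
    exact Finset.single_le_sum (f := fun i => WS (fun k => lam k ^ 3) (v i))
      (fun i _ => WS_nonneg lam3_nonneg _) (Finset.mem_univ i)
  have hEn := En_nonneg v
  have hDn := Dn_nonneg v
  set A := (β₁ + ε / 72) * (2 * Dn v) + C2 * (B * En v) with hA
  set A' := (K * β₁ + ε / 72) * (2 * Dn v) + C1 * (B * (2 * En v)) with hA'
  have t1 : ∀ i j l m, |∫ x in cube, f i x * Gam (v' j) (pd m (a l)) x| ≤ A := by
    intro i j l m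
    refine (h2 β₁ β₂ _ _ _ hβ₁ hβ₂ (hsp i) (hf i) (v' j) (a l) (hvs j) (has l) m).trans ?_
    rw [hA]
    have := hD' j
    have := hD l
    have := hE' j
    gcongr
    linarith
  have tl : ∀ i (g k : V → ℝ), SP g → SP k → fr g 0 = 0 → fr k 0 = 0 → WS lam g ≤ Dn v →
      WS lam k ≤ Dn v → WS il g ≤ En v → WS il k ≤ En v →
      |∫ x in cube, f i x * (g x * k x)| ≤ A' := by
    intro i g k hg hk hg0 hk0 a1 a2 a3 a4
    refine (h1 β₁ β₂ _ _ _ hβ₁ hβ₂ (hsp i) g k hg hk hg0 hk0).trans ?_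
    rw [hA']
    gcongr
    · linarith
    · linarith
  have dL : ∀ i, WS lam (Lam (a i)) ≤ Dn v := fun i => (WS_lam_Lam (has i)).le.trans (hD i)
  have dLv : ∀ i, WS lam (Lam (v' i)) ≤ Dn v := fun i => (WS_lam_Lam (hvs i)).le.trans (hD' i)
  have eL : ∀ i, WS il (Lam (a i)) ≤ En v := fun i => (WS_il_Lam (has i)).le.trans (hE i)
  have eLv : ∀ i, WS il (Lam (v' i)) ≤ En v := fun i => (WS_il_Lam (hvs i)).le.trans (hE' i)
  have t2 : ∀ i j l m, |∫ x in cube, f i x * (Lam (a j) x * pd l (v' m) x)| ≤ A' :=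
    fun i j l m => tl i _ _ (hLa j) ((hvs m).pd l) (fr_Lam_zero (has j)) (fr_pd_zero (hvs m) l)
      (dL j) ((WS_lam_pd (hvs m) l).trans (hD' m)) (eL j) ((WS_il_pd (hvs m) l).trans (hE' m))
  have t3 : ∀ i j l, |∫ x in cube, f i x * (Lam (v' j) x * Lam (a l) x)| ≤ A' := fun i j l =>
    tl i _ _ (hLv j) (hLa l) (fr_Lam_zero (hvs j)) (fr_Lam_zero (has l)) (dLv j) (dL l) (eLv j)
      (eL l)
  have hA0 : 0 ≤ A := by positivity
  have hA'0 : 0 ≤ A' := by positivity
  have hs1 : |s| = 1 := by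
    have : |s| * |s| = 1 := by rw [← abs_mul, hs, abs_one]
    nlinarith [abs_nonneg s]
  have hX : ∀ k, Lam (a k)
      = fun x => -s * (pd (k + 1) (a (k + 2)) x - pd (k + 2) (a (k + 1)) x) := by
    intro k
    funext x
    have h := hca k x
    unfold crl at h
    rw [h]
    linear_combination (-(Lam (a k) x)) * hs
  have t4 : ∀ i j k, |∫ x in cube, f i x * Gam (v' j) (Lam (a k)) x| ≤ 2 * A := by
    intro i j k
    have e : ∀ x, f i x * Gam (v' j) (Lam (a k)) x
        = -s * (f i x * Gam (v' j) (pd (k + 1) (a (k + 2))) x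
          - f i x * Gam (v' j) (pd (k + 2) (a (k + 1))) x) := by
      intro x
      rw [hX k, Gam_lin (hvs j) ((has _).pd _) ((has _).pd _)]
      ring
    simp_rw [e]
    rw [integral_const_mul, integral_sub ((hf i).mul (Gam_sp (hvs j) ((has _).pd _))).int
      ((hf i).mul (Gam_sp (hvs j) ((has _).pd _))).int, abs_mul, abs_neg, hs1, one_mul]
    refine (abs_sub _ _).trans ?_
    have := t1 i j (k + 2) (k + 1)
    have := t1 i j (k + 1) (k + 2)
    linarith
  have hterm : ∀ i, |∫ x in cube, f i x * (- -s * (∑ j, Lam (a j) x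
      * (pd j (v' i) x + pd i (v' j) x))
      + crs (fun i => Lam (v' i)) (fun i => Lam (a i)) i x
      - (Gam (v' (i + 1)) (Lam (a (i + 2))) x - Gam (v' (i + 2)) (Lam (a (i + 1))) x))|
      ≤ 4 * A + 8 * A' := by
    intro i
    have g1 : ∀ j l m, IntegrableOn (fun x => f i x * (Lam (a j) x * pd l (v' m) x)) cube :=
      fun j l m => ((hf i).mul ((hLa j).mul ((hvs m).pd l))).int
    have g3 : ∀ j l, IntegrableOn (fun x => f i x * (Lam (v' j) x * Lam (a l) x)) cube :=
      fun j l => ((hf i).mul ((hLv j).mul (hLa l))).int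
    have g4 : ∀ j k, IntegrableOn (fun x => f i x * Gam (v' j) (Lam (a k)) x) cube := fun j k =>
      ((hf i).mul (Gam_sp (hvs j) (hLa k))).int
    have G1' : IntegrableOn (fun x => ∑ j, f i x * (Lam (a j) x * pd j (v' i) x)) cube :=
      integrable_finsetSum _ fun j _ => g1 j j i
    have G2' : IntegrableOn (fun x => ∑ j, f i x * (Lam (a j) x * pd i (v' j) x)) cube :=
      integrable_finsetSum _ fun j _ => g1 j i j
    have G12 : IntegrableOn (fun x => s * ((∑ j, f i x * (Lam (a j) x * pd j (v' i) x))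
        + ∑ j, f i x * (Lam (a j) x * pd i (v' j) x))) cube := (G1'.add G2').const_mul s
    have G3' : IntegrableOn (fun x => f i x * (Lam (v' (i + 1)) x * Lam (a (i + 2)) x)
      - f i x * (Lam (v' (i + 2)) x * Lam (a (i + 1)) x)) cube := (g3 _ _).sub (g3 _ _)
    have G4' : IntegrableOn (fun x => f i x * Gam (v' (i + 1)) (Lam (a (i + 2))) x
      - f i x * Gam (v' (i + 2)) (Lam (a (i + 1))) x) cube := (g4 _ _).sub (g4 _ _)
    have G123 : IntegrableOn (fun x => s * ((∑ j, f i x * (Lam (a j) x * pd j (v' i) x))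
        + ∑ j, f i x * (Lam (a j) x * pd i (v' j) x))
        + (f i x * (Lam (v' (i + 1)) x * Lam (a (i + 2)) x)
      - f i x * (Lam (v' (i + 2)) x * Lam (a (i + 1)) x))) cube := G12.add G3'
    have e : ∫ x in cube, f i x * (- -s * (∑ j, Lam (a j) x * (pd j (v' i) x + pd i (v' j) x))
      + crs (fun i => Lam (v' i)) (fun i => Lam (a i)) i x
      - (Gam (v' (i + 1)) (Lam (a (i + 2))) x - Gam (v' (i + 2)) (Lam (a (i + 1))) x))
        = s * ((∑ j, ∫ x in cube, f i x * (Lam (a j) x * pd j (v' i) x))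
          + ∑ j, ∫ x in cube, f i x * (Lam (a j) x * pd i (v' j) x))
          + ((∫ x in cube, f i x * (Lam (v' (i + 1)) x * Lam (a (i + 2)) x))
            - ∫ x in cube, f i x * (Lam (v' (i + 2)) x * Lam (a (i + 1)) x))
          - ((∫ x in cube, f i x * Gam (v' (i + 1)) (Lam (a (i + 2))) x)
            - ∫ x in cube, f i x * Gam (v' (i + 2)) (Lam (a (i + 1))) x) := by
      rw [← integral_finsetSum _ fun j _ => g1 j j i, ← integral_finsetSum _ fun j _ => g1 j i j,
        ← integral_sub (g3 _ _) (g3 _ _), ← integral_sub (g4 _ _) (g4 _ _),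
        ← integral_add G1' G2', ← integral_const_mul, ← integral_add G12 G3',
        ← integral_sub G123 G4']
      congr 1
      funext x
      have e5 : ∑ j, Lam (a j) x * (pd j (v' i) x + pd i (v' j) x)
          = (∑ j, Lam (a j) x * pd j (v' i) x) + ∑ j, Lam (a j) x * pd i (v' j) x := by
        rw [← Finset.sum_add_distrib]
        exact Finset.sum_congr rfl fun j _ => by ring
      rw [e5, ← Finset.mul_sum, ← Finset.mul_sum]
      unfold crs
      ring
    rw [e]
    have b1 := abs_sum3_le (t := fun j => ∫ x in cube, f i x * (Lam (a j) x * pd j (v' i) x))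
      (c := A') fun j => t2 i j j i
    have b2 := abs_sum3_le (t := fun j => ∫ x in cube, f i x * (Lam (a j) x * pd i (v' j) x))
      (c := A') fun j => t2 i j i j
    have b3 := t3 i (i + 1) (i + 2)
    have b4 := t3 i (i + 2) (i + 1)
    have b5 := t4 i (i + 1) (i + 2)
    have b6 := t4 i (i + 2) (i + 1)
    have c1 : |s * ((∑ j, ∫ x in cube, f i x * (Lam (a j) x * pd j (v' i) x))
          + ∑ j, ∫ x in cube, f i x * (Lam (a j) x * pd i (v' j) x))| ≤ 6 * A' := by
      rw [abs_mul, hs1, one_mul]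
      refine (abs_add_le _ _).trans ?_
      linarith
    have c2 : |(∫ x in cube, f i x * (Lam (v' (i + 1)) x * Lam (a (i + 2)) x))
            - ∫ x in cube, f i x * (Lam (v' (i + 2)) x * Lam (a (i + 1)) x)| ≤ 2 * A' := by
      refine (abs_sub _ _).trans ?_
      linarith
    have c3 : |(∫ x in cube, f i x * Gam (v' (i + 1)) (Lam (a (i + 2))) x)
            - ∫ x in cube, f i x * Gam (v' (i + 2)) (Lam (a (i + 1))) x| ≤ 4 * A := by
      refine (abs_sub _ _).trans ?_
      linarith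
    refine (abs_sub _ _).trans ?_
    have c4 := abs_add_le (s * ((∑ j, ∫ x in cube, f i x * (Lam (a j) x * pd j (v' i) x))
          + ∑ j, ∫ x in cube, f i x * (Lam (a j) x * pd i (v' j) x)))
      ((∫ x in cube, f i x * (Lam (v' (i + 1)) x * Lam (a (i + 2)) x))
            - ∫ x in cube, f i x * (Lam (v' (i + 2)) x * Lam (a (i + 1)) x))
    linarith
  rw [hid]
  refine (abs_sum3_le hterm).trans (le_of_eq ?_)
  rw [hA, hA']
  ring

end Pool.Agent.U172.SS
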