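import Pool.Agent.U172.SS.Fin

set_option autoImplicit false

/-!
The criterion for one helical part in a sum space: final forms.
-/

open MeasureTheory Set Filter Topology
open scoped ContDiff ComplexConjugate RealInnerProductSpace ENNReal

namespace Pool.Agent.U172.SS

open H459R3.NS Pool.Agent.Q63.Win Pool.Agent.U583.HC

theorem half_nonneg (v : V → V) : 0 ≤ half v := by
  unfold half
  exact tsum_nonneg fun k => by positivity

theorem exp_par {r : ℝ≥0∞} (hr : 3 / 2 < r) {m : ℝ} (hm : 3 * (r⁻¹).toReal + 2 / m = 2) :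
    1 ≤ r ∧ 3 * (r⁻¹).toReal < 2 ∧ 0 < m := by
  have h32 : (1 : ℝ≥0∞) ≤ 3 / 2 := by
    rw [ENNReal.le_div_iff_mul_le (Or.inl (by norm_num)) (Or.inl (by norm_num))]
    norm_num
  have hlt : 3 * (r⁻¹).toReal < 2 := by
    rcases eq_or_ne r ∞ with h | h
    · rw [h]; simp
    · have h1 : (3 / 2 : ℝ) < r.toReal := by
        have := (ENNReal.toReal_lt_toReal (lt_of_lt_of_le hr le_top).ne h).2 hr
        rwa [ENNReal.toReal_div, ENNReal.toReal_ofNat, ENNReal.toReal_ofNat] at this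
      rw [ENNReal.toReal_inv, ← div_eq_mul_inv, div_lt_iff₀ (by linarith)]
      linarith
  refine ⟨h32.trans hr.le, hlt, ?_⟩
  by_contra hm0
  push Not at hm0
  have : 2 / m ≤ 0 := div_nonpos_of_nonneg_of_nonpos (by norm_num) hm0
  linarith

theorem exp_eq {x m a : ℝ} (h : x + 2 / m = 1 + a) (hx : x < 1 + a) :
    m = 2 / (1 + a - 2 * (x / 2)) := by
  have h1 : 2 / m = 1 + a - 2 * (x / 2) := by linarith
  rw [← h1]
  have hm0 : m ≠ 0 := by
    intro h0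
    rw [h0, div_zero] at h
    linarith
  field_simp

theorem len_norm {P : ℝ≥0∞} (hP : 1 ≤ P) {w : V → V} (hw : Continuous w) {b : ℝ}
    (h : ∀ i, eLpNorm (fun x => w x i) P (volume.restrict cube) ≤ ENNReal.ofReal b) :
    eLpNorm (fun x => NS.len (w x)) P (volume.restrict cube) ≤ ENNReal.ofReal (3 * b) := by
  have hc : ∀ i, Continuous fun x => w x i := fun i => (continuous_apply i).comp hw
  have h4 : eLpNorm (fun x => NS.len (w x)) P (volume.restrict cube)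
      ≤ eLpNorm (fun x => ∑ i, |w x i|) P (volume.restrict cube) := by
    refine eLpNorm_mono_real fun x => ?_
    rw [Real.norm_eq_abs, abs_of_nonneg (NS.len_nonneg _)]
    exact NS.len_le _
  have h5 : eLpNorm (fun x => ∑ i, |w x i|) P (volume.restrict cube)
      ≤ ∑ i, eLpNorm (fun x => |w x i|) P (volume.restrict cube) := by
    have e : (fun x => ∑ i, |w x i|) = ∑ i, fun x => |w x i| := by
      funext x
      simp
    rw [e]
    exact eLpNorm_sum_le (fun i _ => (hc i).abs.aestronglyMeasurable) hP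
  refine h4.trans (h5.trans ?_)
  have h6 : ∀ i ∈ (Finset.univ : Finset (Fin 3)),
      eLpNorm (fun x => |w x i|) P (volume.restrict cube) ≤ ENNReal.ofReal b := by
    intro i _
    have e : eLpNorm (fun x => |w x i|) P (volume.restrict cube)
        = eLpNorm (fun x => w x i) P (volume.restrict cube) := eLpNorm_norm (fun x => w x i)
    rw [e]
    exact h i
  refine (Finset.sum_le_sum h6).trans (le_of_eq ?_)
  rw [Finset.sum_const, Finset.card_univ, Fintype.card_fin, ENNReal.ofReal_mul (by norm_num)]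
  simp

/-- The criterion in terms of Lebesgue norms. -/
theorem sum_main : ∃ c : ℝ, 0 < c ∧ ∀ p : ℝ≥0∞, 3 < p → ∀ q : ℝ, 3 * (p⁻¹).toReal + 2 / q = 1 →
    ∀ r : ℝ≥0∞, 3 / 2 < r → ∀ m : ℝ, 3 * (r⁻¹).toReal + 2 / m = 2 →
    ∀ s n : ℝ, 3 / 2 < s → s ≤ 6 → 3 / s + 2 / n = 2 → ∀ ν : ℝ, 0 < ν → ∃ C : ℝ, 0 ≤ C ∧
    ∀ (T : ℝ) (u : ℝ → V → V) (P : ℝ → V → ℝ) (β γ δ : ℝ → ℝ),
      IsSol ν T u P → (∀ t ∈ Ioo 0 T, 0 ≤ β t ∧ 0 ≤ γ t ∧ 0 ≤ δ t) →
      IntegrableOn (fun t => β t ^ q) (Ioo 0 T) → IntegrableOn (fun t => γ t ^ m) (Ioo 0 T) →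
      IntegrableOn (fun t => δ t ^ n) (Ioo 0 T) →
      (∀ᵐ t ∂(volume.restrict (Ioo 0 T)), (∃ (σ : ℝ) (y w z : V → V), (σ = 1 ∨ σ = -1) ∧
        AEStronglyMeasurable y (volume.restrict cube) ∧
        AEStronglyMeasurable w (volume.restrict cube) ∧
        SPV z ∧ (∀ x, ∑ i, pd i (fun y => z y i) x = 0) ∧
        (∀ᵐ x ∂(volume.restrict cube), hel σ (u t) x = y x + w x + hel σ z x) ∧
        (∀ i, eLpNorm (fun x => y x i) 3 (volume.restrict cube) ≤ ENNReal.ofReal (c * ν)) ∧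
        (∀ i, eLpNorm (fun x => w x i) p (volume.restrict cube) ≤ ENNReal.ofReal (β t)) ∧
        ∀ i, eLpNorm (fun x => NS.helVort σ z x i) r (volume.restrict cube)
          ≤ ENNReal.ofReal (γ t)) ∨
        eLpNorm (fun x => min (NS.len (NS.helVort 1 (u t) x)) (NS.len (NS.helVort (-1) (u t) x)))
          (ENNReal.ofReal s) (volume.restrict cube) ≤ ENNReal.ofReal (δ t)) →
      (∀ t ∈ Ico 0 T, half (u t) ≤ half (u 0)
        * Real.exp (C * ∫ s in Ioo 0 t, (β s ^ q + γ s ^ m + δ s ^ n))) ∧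
      ∃ M, ∀ t ∈ Ico 0 T, ∀ x i, |u t x i| ≤ M := by
  obtain ⟨c0, hc00, hmain⟩ := main0
  obtain ⟨C3, hC3, hm3⟩ := mul_of_Lp' (p := 3) le_rfl
  rw [th_three] at hm3
  refine ⟨c0 / (C3 + 1), by positivity, fun p hp3 q hpq r hr m hm s n hs1 hs2 hn ν hν => ?_⟩
  set c := c0 / (C3 + 1) with hc
  have hc0 : 0 < c := by positivity
  have hcle : C3 * (c * ν) ≤ c0 * ν := by
    have h1 : C3 * c ≤ c0 := by
      rw [hc, mul_div_assoc', div_le_iff₀ (by positivity)]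
      nlinarith
    calc C3 * (c * ν) = (C3 * c) * ν := by ring
      _ ≤ c0 * ν := by gcongr
  set θ := th p with hθ
  have hθ0 : 0 ≤ θ := th_nonneg p
  have hθ1 : θ < 1 := th_lt_one hp3
  have hq : q = 2 / (1 - θ) := by
    have h1 : 2 / q = 1 - θ := by
      have : θ = 3 * (p⁻¹).toReal := rfl
      rw [this]
      linarith
    rw [← h1]
    have : q ≠ 0 := by
      intro h0
      rw [h0, div_zero] at h1
      linarith
    field_simp
  have hqpos : 0 < q := by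
    rw [hq]
    exact div_pos two_pos (by linarith)
  obtain ⟨hr1, hr2, hmpos⟩ := exp_par hr hm
  have hr0 : r ≠ 0 := by
    rintro rfl
    exact absurd hr1 (by simp)
  have hmy : m = 2 / (1 + 1 - 2 * (3 * (r⁻¹).toReal / 2)) :=
    exp_eq (by linarith) (by linarith)
  obtain ⟨Cp, hCp, hmp⟩ := mul_of_Lp' (p := p) hp3.le
  obtain ⟨C0, hC0, hM⟩ := hmain θ hθ0 hθ1 1 r (3 * (r⁻¹).toReal / 2) s n one_pos le_rfl (by ring)
    hr0 (by positivity) (by linarith) hs1 hs2 hn ν hν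
  rw [← hq, ← hmy] at hM
  set D := max (max (Cp ^ q) (3 ^ m)) 1 with hD
  have hD1 : 1 ≤ D := le_max_right _ _
  have hD0 : 0 ≤ D := zero_le_one.trans hD1
  refine ⟨C0 * D, by positivity, fun T u P β γ δ h h0 hβi hγi hδi hu => ?_⟩
  have hpow : ∀ t ∈ Ioo 0 T, (Cp * β t) ^ q = Cp ^ q * β t ^ q := fun t ht =>
    Real.mul_rpow hCp (h0 t ht).1
  have hint : IntegrableOn (fun t => (Cp * β t) ^ q) (Ioo 0 T) :=
    (integrableOn_congr_fun hpow measurableSet_Ioo).2 (hβi.const_mul _)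
  have hpow3 : ∀ t ∈ Ioo 0 T, (3 * γ t) ^ m = 3 ^ m * γ t ^ m := fun t ht =>
    Real.mul_rpow (by norm_num) (h0 t ht).2.1
  have hint3 : IntegrableOn (fun t => (3 * γ t) ^ m) (Ioo 0 T) :=
    (integrableOn_congr_fun hpow3 measurableSet_Ioo).2 (hγi.const_mul _)
  obtain ⟨h1, h2⟩ := hM T u P (fun t => Cp * β t) (fun t => 3 * γ t) δ h
    (fun t ht => ⟨mul_nonneg hCp (h0 t ht).1, mul_nonneg (by norm_num) (h0 t ht).2.1,
      (h0 t ht).2.2⟩) hint hint3 hδi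
    (by
      filter_upwards [hu, ae_restrict_mem measurableSet_Ioo] with t ht htI
      rcases ht with ⟨σ, y, w, z, hσ, hym, hwm, hz, hdz, he, hy, hw, hb⟩ | ht
      · have hym' : ∀ i, AEStronglyMeasurable (fun x => y x i) (volume.restrict cube) := fun i =>
          (continuous_apply i).comp_aestronglyMeasurable hym
        have hwm' : ∀ i, AEStronglyMeasurable (fun x => w x i) (volume.restrict cube) := fun i =>
          (continuous_apply i).comp_aestronglyMeasurable hwm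
        exact Or.inl ⟨σ, y, w, z, hσ, hz, hdz, he, fun i => int_of_Lp le_rfl (hym' i) (hy i),
          fun i => int_of_Lp hp3.le (hwm' i) (hw i),
          fun i => mul_mono' hcle (hm3 _ _ (hym' i) (by positivity) (hy i)),
          fun i => hmp _ _ (hwm' i) (h0 t htI).1 (hw i),
          NS.besov_one hr1 (NS.helVort_spv hz σ)
            (len_norm hr1 (NS.helVort_spv hz σ).1.continuous hb)⟩
      · exact Or.inr ht)
  refine ⟨fun t ht => (h1 t ht).trans ?_, h2⟩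
  refine mul_le_mul_of_nonneg_left (Real.exp_le_exp.2 ?_) (half_nonneg (u 0))
  have eD : D * ∫ s in Ioo 0 t, (β s ^ q + γ s ^ m + δ s ^ n)
      = ∫ s in Ioo 0 t, D * (β s ^ q + γ s ^ m + δ s ^ n) := (integral_const_mul _ _).symm
  rw [mul_assoc, eD]
  refine mul_le_mul_of_nonneg_left ?_ hC0
  have hsub : Ioo 0 t ⊆ Ioo 0 T := Ioo_subset_Ioo_right ht.2.le
  refine setIntegral_mono_on (((hint.mono_set hsub).add (hint3.mono_set hsub)).add
    (hδi.mono_set hsub)) ((((hβi.mono_set hsub).add (hγi.mono_set hsub)).add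
    (hδi.mono_set hsub)).const_mul D) measurableSet_Ioo fun τ hτ => ?_
  obtain ⟨a1, a2, a3⟩ := h0 τ (hsub hτ)
  have b1 := Real.rpow_nonneg a1 q
  have b2 := Real.rpow_nonneg a2 m
  have b3 := Real.rpow_nonneg a3 n
  show (Cp * β τ) ^ q + (3 * γ τ) ^ m + δ τ ^ n ≤ D * (β τ ^ q + γ τ ^ m + δ τ ^ n)
  rw [hpow τ (hsub hτ), hpow3 τ (hsub hτ)]
  have e1 : Cp ^ q * β τ ^ q ≤ D * β τ ^ q := mul_le_mul_of_nonneg_right
    ((le_max_left _ _).trans (le_max_left _ _)) b1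
  have e2 : 3 ^ m * γ τ ^ m ≤ D * γ τ ^ m := mul_le_mul_of_nonneg_right
    ((le_max_right _ _).trans (le_max_left _ _)) b2
  have e3 : δ τ ^ n ≤ D * δ τ ^ n := le_mul_of_one_le_left b3 hD1
  linarith

/-- The criterion in terms of multiplier norms and Besov norms. -/
theorem sum_mul : ∃ c : ℝ, 0 < c ∧ ∀ θ : ℝ, 0 ≤ θ → θ < 1 → ∀ a : ℝ, 0 < a → a ≤ 1 →
    ∀ r : ℝ≥0∞, r ≠ 0 → 3 * (r⁻¹).toReal < 1 + a → ∀ m : ℝ, 3 * (r⁻¹).toReal + 2 / m = 1 + a →
    ∀ s n : ℝ, 3 / 2 < s → s ≤ 6 → 3 / s + 2 / n = 2 → ∀ ν : ℝ, 0 < ν → ∃ C : ℝ, 0 ≤ C ∧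
    ∀ (T : ℝ) (u : ℝ → V → V) (P : ℝ → V → ℝ) (β γ δ : ℝ → ℝ),
      IsSol ν T u P → (∀ t ∈ Ioo 0 T, 0 ≤ β t ∧ 0 ≤ γ t ∧ 0 ≤ δ t) →
      IntegrableOn (fun t => β t ^ (2 / (1 - θ))) (Ioo 0 T) →
      IntegrableOn (fun t => γ t ^ m) (Ioo 0 T) → IntegrableOn (fun t => δ t ^ n) (Ioo 0 T) →
      (∀ᵐ t ∂(volume.restrict (Ioo 0 T)), (∃ (σ : ℝ) (y w z : V → V), (σ = 1 ∨ σ = -1) ∧
        SPV z ∧ (∀ x, ∑ i, pd i (fun y => z y i) x = 0) ∧
        (∀ᵐ x ∂(volume.restrict cube), hel σ (u t) x = y x + w x + hel σ z x) ∧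
        (∀ i, Mulp 1 (c * ν) (fun x => y x i)) ∧ (∀ i, Mulp θ (β t) (fun x => w x i)) ∧
        NS.BesovLe a r (NS.helVort σ z) (γ t)) ∨
        eLpNorm (fun x => min (NS.len (NS.helVort 1 (u t) x)) (NS.len (NS.helVort (-1) (u t) x)))
          (ENNReal.ofReal s) (volume.restrict cube) ≤ ENNReal.ofReal (δ t)) →
      (∀ t ∈ Ico 0 T, half (u t) ≤ half (u 0)
        * Real.exp (C * ∫ s in Ioo 0 t, (β s ^ (2 / (1 - θ)) + γ s ^ m + δ s ^ n))) ∧
      ∃ M, ∀ t ∈ Ico 0 T, ∀ x i, |u t x i| ≤ M := by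
  obtain ⟨c, hc0, hmain⟩ := main0
  refine ⟨c, hc0, fun θ hθ0 hθ1 a ha0 ha1 r hr0 hra m hm s n hs1 hs2 hn ν hν => ?_⟩
  have hmy : m = 2 / (1 + a - 2 * (3 * (r⁻¹).toReal / 2)) := exp_eq hm hra
  obtain ⟨C, hC, hM⟩ := hmain θ hθ0 hθ1 a r (3 * (r⁻¹).toReal / 2) s n ha0 ha1 (by ring) hr0
    (by positivity) (by linarith) hs1 hs2 hn ν hν
  rw [← hmy] at hM
  refine ⟨C, hC, fun T u P β γ δ h h0 hβi hγi hδi hu => hM T u P β γ δ h h0 hβi hγi hδi ?_⟩
  filter_upwards [hu, ae_restrict_mem measurableSet_Ioo] with t ht htI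
  rcases ht with ⟨σ, y, w, z, hσ, hz, hdz, he, hy, hw, hb⟩ | ht
  · exact Or.inl ⟨σ, y, w, z, hσ, hz, hdz, he, fun i => (hy i).int, fun i => (hw i).int,
      fun i => (hy i).mul (by positivity), fun i => (hw i).mul (h0 t htI).1, hb⟩
  · exact Or.inr ht

end Pool.Agent.U172.SS
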